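import Mathlib

/-!
# Maximum principle in flux form
-/

set_option autoImplicit false

open Set Filter Topology

namespace Pool.Agent.Lib.MP_230119_an.EX

/-- One sided form of the flux principle. -/
theorem B02a_aux {α β : ℝ} {z z' Φ Φ' W : ℝ → ℝ}
    (hz : ∀ x ∈ Ioo α β, HasDerivAt z (z' x) x)
    (hW : ∀ x ∈ Ioo α β, 0 < W x)
    (hΦ : ∀ x ∈ Ioo α β, Φ x = W x * z' x)
    (hΦ' : ∀ x ∈ Ioo α β, HasDerivAt Φ (Φ' x) x)
    (hneg : ∀ x ∈ Ioo α β, z x < 0 → Φ' x < 0)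
    (hβ : Tendsto Φ (𝓝[<] β) (𝓝 0)) {x₀ : ℝ} (hx₀ : x₀ ∈ Ioo α β) (hz₀ : z x₀ < 0)
    (hΦ₀ : Φ x₀ ≤ 0) : False := by
  have hsub : ∀ T, T < β → Icc x₀ T ⊆ Ioo α β := fun T hT x hx =>
    ⟨lt_of_lt_of_le hx₀.1 hx.1, lt_of_le_of_lt hx.2 hT⟩
  -- strict monotonicity of the flux on intervals where z is negative
  have hanti : ∀ T, T < β → (∀ x ∈ Ioo x₀ T, z x < 0) → StrictAntiOn Φ (Icc x₀ T) := by
    intro T hT hzT
    refine strictAntiOn_of_deriv_neg (convex_Icc _ _) ?_ ?_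
    · intro x hx
      exact (hΦ' x (hsub T hT hx)).continuousAt.continuousWithinAt
    · intro x hx
      rw [interior_Icc] at hx
      have hx' : x ∈ Ioo α β := hsub T hT (Ioo_subset_Icc_self hx)
      rw [(hΦ' x hx').deriv]
      exact hneg x hx' (hzT x hx)
  -- z is negative on (x₀, β)
  have hzneg : ∀ x ∈ Ioo x₀ β, z x < 0 := by
    intro x₁ hx₁
    by_contra hcon
    have hcon' : 0 ≤ z x₁ := not_lt.mp hcon
    have hcont : ContinuousOn z (Icc x₀ x₁) := fun x hx =>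
      (hz x (hsub x₁ hx₁.2 hx)).continuousAt.continuousWithinAt
    set A : Set ℝ := Icc x₀ x₁ ∩ z ⁻¹' (Ici 0) with hA
    have hAcl : IsClosed A := hcont.preimage_isClosed_of_isClosed isClosed_Icc isClosed_Ici
    have hAne : A.Nonempty := ⟨x₁, ⟨⟨hx₁.1.le, le_rfl⟩, hcon'⟩⟩
    have hAbdd : BddBelow A := ⟨x₀, fun y hy => hy.1.1⟩
    have hT : sInf A ∈ A := hAcl.csInf_mem hAne hAbdd
    set T := sInf A with hTdef
    have hT0 : x₀ < T := by
      rcases lt_or_eq_of_le hT.1.1 with h | h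
      · exact h
      · exfalso
        have h2 : (0 : ℝ) ≤ z T := hT.2
        rw [← h] at h2
        linarith
    have hTβ : T < β := lt_of_le_of_lt hT.1.2 hx₁.2
    have hzT : ∀ x ∈ Ioo x₀ T, z x < 0 := by
      intro x hx
      by_contra hc
      have : x ∈ A := ⟨⟨hx.1.le, hx.2.le.trans hT.1.2⟩, not_lt.mp hc⟩
      exact absurd (csInf_le hAbdd this) (not_le.mpr hx.2)
    have hΦa := hanti T hTβ hzT
    have hzanti : StrictAntiOn z (Icc x₀ T) := by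
      refine strictAntiOn_of_deriv_neg (convex_Icc _ _) ?_ ?_
      · intro x hx
        exact (hz x (hsub T hTβ hx)).continuousAt.continuousWithinAt
      · intro x hx
        rw [interior_Icc] at hx
        have hx' : x ∈ Ioo α β := hsub T hTβ (Ioo_subset_Icc_self hx)
        rw [(hz x hx').deriv]
        have h1 : Φ x < Φ x₀ :=
          hΦa ⟨le_rfl, hT0.le⟩ (Ioo_subset_Icc_self hx) hx.1
        rw [hΦ x hx'] at h1
        have h2 : W x * z' x < 0 := lt_of_lt_of_le h1 hΦ₀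
        have h3 := hW x hx'
        by_contra hc
        have h4 : 0 ≤ W x * z' x := mul_nonneg h3.le (not_lt.mp hc)
        linarith
    have h5 : z T < z x₀ := hzanti ⟨le_rfl, hT0.le⟩ ⟨hT0.le, le_rfl⟩ hT0
    have h6 : (0 : ℝ) ≤ z T := hT.2
    linarith
  obtain ⟨x₁, hx₁⟩ : ∃ x₁, x₁ ∈ Ioo x₀ β := ⟨(x₀ + β) / 2, by
    constructor
    · linarith [hx₀.2]
    · linarith [hx₀.2]⟩
  have h7 : Φ x₁ < Φ x₀ := by
    have := hanti x₁ hx₁.2 (fun x hx => hzneg x ⟨hx.1, hx.2.trans hx₁.2⟩)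
    exact this ⟨le_rfl, hx₁.1.le⟩ ⟨hx₁.1.le, le_rfl⟩ hx₁.1
  have h8 : ∀ᶠ x in 𝓝[<] β, Φ x ≤ Φ x₁ := by
    have h9 : Ioo x₁ β ∈ 𝓝[<] β := Ioo_mem_nhdsLT hx₁.2
    filter_upwards [h9] with x hx
    have h10 := hanti x hx.2 (fun y hy => hzneg y ⟨hy.1, hy.2.trans hx.2⟩)
    exact (h10 ⟨hx₁.1.le, hx.1.le⟩ ⟨(hx₁.1.trans hx.1).le, le_rfl⟩ hx.1).le
  have h11 : (0 : ℝ) ≤ Φ x₁ := le_of_tendsto hβ h8
  linarith

/-- If the flux `Φ = W z'`, `W > 0`, tends to `0` at both ends and is strictly decreasing where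
`z < 0`, then `z ≥ 0`. (Suppose `z x₀ < 0`. If `Φ x₀ ≤ 0`, then to the right of `x₀` the function `z`
stays below `z x₀`, `Φ` decreases and is bounded away from `0`; if `Φ x₀ > 0` go to the left.) -/
theorem flux_principle {α β : ℝ} {z z' Φ Φ' W : ℝ → ℝ}
    (hz : ∀ x ∈ Ioo α β, HasDerivAt z (z' x) x)
    (hW : ∀ x ∈ Ioo α β, 0 < W x)
    (hΦ : ∀ x ∈ Ioo α β, Φ x = W x * z' x)
    (hΦ' : ∀ x ∈ Ioo α β, HasDerivAt Φ (Φ' x) x)
    (hneg : ∀ x ∈ Ioo α β, z x < 0 → Φ' x < 0)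
    (hα : Tendsto Φ (𝓝[>] α) (𝓝 0)) (hβ : Tendsto Φ (𝓝[<] β) (𝓝 0)) :
    ∀ x ∈ Ioo α β, 0 ≤ z x := by
  intro x₀ hx₀
  by_contra hcon
  have hz₀ : z x₀ < 0 := not_le.mp hcon
  rcases le_or_gt (Φ x₀) 0 with h | h
  · exact B02a_aux hz hW hΦ hΦ' hneg hβ hx₀ hz₀ h
  · have hmem : ∀ x ∈ Ioo (-β) (-α), -x ∈ Ioo α β := fun x hx =>
      ⟨by linarith [hx.2], by linarith [hx.1]⟩
    refine B02a_aux (α := -β) (β := -α) (z := fun x => z (-x)) (z' := fun x => -z' (-x))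
      (Φ := fun x => -Φ (-x)) (Φ' := fun x => Φ' (-x)) (W := fun x => W (-x)) (x₀ := -x₀)
      ?_ ?_ ?_ ?_ ?_ ?_ ?_ ?_ ?_
    · intro x hx
      have h1 := (hz (-x) (hmem x hx)).comp x (hasDerivAt_neg x)
      have h2 : z' (-x) * -1 = -z' (-x) := by ring
      rw [h2] at h1
      exact h1
    · intro x hx
      exact hW _ (hmem x hx)
    · intro x hx
      show -Φ (-x) = W (-x) * -z' (-x)
      rw [hΦ _ (hmem x hx)]
      ring
    · intro x hx
      have h1 := ((hΦ' (-x) (hmem x hx)).comp x (hasDerivAt_neg x)).neg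
      have h2 : -(Φ' (-x) * -1) = Φ' (-x) := by ring
      rw [h2] at h1
      exact h1
    · intro x hx hx2
      exact hneg _ (hmem x hx) hx2
    · have h1 : Tendsto (fun x : ℝ => -x) (𝓝[<] (-α)) (𝓝[>] α) := by
        have := tendsto_neg_nhdsLT (a := -α)
        rw [neg_neg] at this
        exact this
      have h2 := (hα.comp h1).neg
      rw [neg_zero] at h2
      exact h2
    · exact ⟨by linarith [hx₀.2], by linarith [hx₀.1]⟩
    · show z (- -x₀) < 0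
      rw [neg_neg]
      exact hz₀
    · show -Φ (- -x₀) ≤ 0
      rw [neg_neg]
      linarith

end Pool.Agent.Lib.MP_230119_an.EX
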