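import Pool.Agent.Lib.MP_230119_an.EX.B02a

/-!
# Maximum principle for second order operators
-/

set_option autoImplicit false

open Set Filter Topology

namespace Pool.Agent.Lib.MP_230119_an.EX

/-- One sided form of the maximum principle. -/
theorem B02b_aux {α β C : ℝ} (k : ℕ) {P P' γ S S1 S2 v v1 v2 : ℝ → ℝ}
    (hP : ∀ x ∈ Ioo α β, 0 < P x) (hP' : ∀ x ∈ Ioo α β, HasDerivAt P (P' x) x)
    (hS : ∀ x ∈ Ioo α β, 0 < S x) (hS1 : ∀ x ∈ Ioo α β, HasDerivAt S (S1 x) x)
    (hS2 : ∀ x ∈ Ioo α β, HasDerivAt S1 (S2 x) x)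
    (hv1 : ∀ x ∈ Ioo α β, HasDerivAt v (v1 x) x)
    (hv2 : ∀ x ∈ Ioo α β, HasDerivAt v1 (v2 x) x)
    (hMS : ∀ x ∈ Ioo α β, P x * S2 x + (k + 1) * P' x * S1 x + γ x * S x < 0)
    (hMv : ∀ x ∈ Ioo α β, C * (P x * S2 x + (k + 1) * P' x * S1 x + γ x * S x) ≤
      P x * v2 x + (k + 1) * P' x * v1 x + γ x * v x)
    (hα : Tendsto (fun x => P x ^ (k + 1) * (S x * v1 x - v x * S1 x)) (𝓝[>] α) (𝓝 0))
    (hβ : Tendsto (fun x => P x ^ (k + 1) * (S x * v1 x - v x * S1 x)) (𝓝[<] β) (𝓝 0)) :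
    ∀ x ∈ Ioo α β, v x ≤ C * S x := by
  have key : ∀ x ∈ Ioo α β, 0 ≤ C - v x / S x := by
    refine flux_principle (z := fun x => C - v x / S x)
      (z' := fun x => -((v1 x * S x - v x * S1 x) / S x ^ 2))
      (Φ := fun x => -(P x ^ (k + 1) * (S x * v1 x - v x * S1 x)))
      (Φ' := fun x => -(((k + 1 : ℕ) : ℝ) * P x ^ k * P' x * (S x * v1 x - v x * S1 x) +
        P x ^ (k + 1) * ((S1 x * v1 x + S x * v2 x) - (v1 x * S1 x + v x * S2 x))))
      (W := fun x => P x ^ (k + 1) * S x ^ 2) ?_ ?_ ?_ ?_ ?_ ?_ ?_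
    · intro x hx
      have h1 := ((hv1 x hx).div (hS1 x hx) (hS x hx).ne').const_sub C
      exact h1
    · intro x hx
      have h1 := hP x hx
      have h2 := hS x hx
      positivity
    · intro x hx
      have h2 := (hS x hx).ne'
      show -(P x ^ (k + 1) * (S x * v1 x - v x * S1 x)) =
        P x ^ (k + 1) * S x ^ 2 * -((v1 x * S x - v x * S1 x) / S x ^ 2)
      field_simp
    · intro x hx
      have h1 := (hP' x hx).pow (k + 1)
      have h2 := ((hS1 x hx).mul (hv2 x hx)).sub ((hv1 x hx).mul (hS2 x hx))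
      have h3 := (h1.mul h2).neg
      rw [Nat.add_sub_cancel] at h3
      exact h3
    · intro x hx hz
      have hSx := hS x hx
      have hPx := hP x hx
      have h1 : C < v x / S x := by
        have : C - v x / S x < 0 := hz
        linarith
      have h2 : C * S x < v x := (lt_div_iff₀ hSx).mp h1
      have h3 := hMS x hx
      have h4 := hMv x hx
      set MS := P x * S2 x + (k + 1) * P' x * S1 x + γ x * S x with hMSd
      set Mv := P x * v2 x + (k + 1) * P' x * v1 x + γ x * v x with hMvd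
      have h5 : 0 < S x * Mv - v x * MS := by
        have h6 : 0 < (C * S x - v x) * MS := mul_pos_of_neg_of_neg (by linarith) h3
        have h7 : S x * (C * MS) ≤ S x * Mv := mul_le_mul_of_nonneg_left h4 hSx.le
        nlinarith [h6, h7]
      have h8 : -(((k + 1 : ℕ) : ℝ) * P x ^ k * P' x * (S x * v1 x - v x * S1 x) +
          P x ^ (k + 1) * ((S1 x * v1 x + S x * v2 x) - (v1 x * S1 x + v x * S2 x))) =
          -(P x ^ k * (S x * Mv - v x * MS)) := by
        rw [hMSd, hMvd]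
        push_cast
        ring
      show -(((k + 1 : ℕ) : ℝ) * P x ^ k * P' x * (S x * v1 x - v x * S1 x) +
          P x ^ (k + 1) * ((S1 x * v1 x + S x * v2 x) - (v1 x * S1 x + v x * S2 x))) < 0
      rw [h8]
      have h9 : 0 < P x ^ k := pow_pos hPx k
      have h10 : 0 < P x ^ k * (S x * Mv - v x * MS) := mul_pos h9 h5
      linarith
    · have := hα.neg
      rw [neg_zero] at this
      exact this
    · have := hβ.neg
      rw [neg_zero] at this
      exact this
  intro x hx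
  have h1 := key x hx
  have h2 : v x / S x ≤ C := by linarith
  exact (div_le_iff₀ (hS x hx)).mp h2

/-- Maximum principle for `M w = P w'' + (k+1) P' w' + γ w` with a positive strict supersolution
`S` (`M S < 0`): apply `flux_principle` to `z = C - v/S` and to `z = C + v/S` with `W = P^(k+1) S²`. -/
theorem max_principle {α β C : ℝ} (hC : 0 < C) (k : ℕ) {P P' γ S S1 S2 v v1 v2 : ℝ → ℝ}
    (hP : ∀ x ∈ Ioo α β, 0 < P x) (hP' : ∀ x ∈ Ioo α β, HasDerivAt P (P' x) x)
    (hS : ∀ x ∈ Ioo α β, 0 < S x) (hS1 : ∀ x ∈ Ioo α β, HasDerivAt S (S1 x) x)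
    (hS2 : ∀ x ∈ Ioo α β, HasDerivAt S1 (S2 x) x)
    (hv1 : ∀ x ∈ Ioo α β, HasDerivAt v (v1 x) x)
    (hv2 : ∀ x ∈ Ioo α β, HasDerivAt v1 (v2 x) x)
    (hMS : ∀ x ∈ Ioo α β, P x * S2 x + (k + 1) * P' x * S1 x + γ x * S x < 0)
    (hMv : ∀ x ∈ Ioo α β, |P x * v2 x + (k + 1) * P' x * v1 x + γ x * v x|
      ≤ C * -(P x * S2 x + (k + 1) * P' x * S1 x + γ x * S x))
    (hα : Tendsto (fun x => P x ^ (k + 1) * (S x * v1 x - v x * S1 x)) (𝓝[>] α) (𝓝 0))
    (hβ : Tendsto (fun x => P x ^ (k + 1) * (S x * v1 x - v x * S1 x)) (𝓝[<] β) (𝓝 0)) :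
    ∀ x ∈ Ioo α β, |v x| ≤ C * S x := by
  have _ := hC
  intro x hx
  rw [abs_le]
  constructor
  · have h := B02b_aux (C := C) k (P := P) (P' := P') (γ := γ) (S := S) (S1 := S1) (S2 := S2)
      (v := fun x => -v x) (v1 := fun x => -v1 x) (v2 := fun x => -v2 x) hP hP' hS hS1 hS2
      (fun x hx => (hv1 x hx).neg) (fun x hx => (hv2 x hx).neg) hMS ?_ ?_ ?_ x hx
    · have h2 : -v x ≤ C * S x := h
      linarith
    · intro y hy
      have h1 := (abs_le.mp (hMv y hy)).2
      show C * (P y * S2 y + (k + 1) * P' y * S1 y + γ y * S y) ≤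
        P y * -v2 y + (k + 1) * P' y * -v1 y + γ y * -v y
      linarith
    · have h1 := hα.neg
      rw [neg_zero] at h1
      refine h1.congr (fun y => ?_)
      ring
    · have h1 := hβ.neg
      rw [neg_zero] at h1
      refine h1.congr (fun y => ?_)
      ring
  · refine B02b_aux (C := C) k hP hP' hS hS1 hS2 hv1 hv2 hMS ?_ hα hβ x hx
    intro y hy
    have h1 := (abs_le.mp (hMv y hy)).1
    linarith

end Pool.Agent.Lib.MP_230119_an.EX
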