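import Mathlib

/-!
# Endpoint lemmas
-/

set_option autoImplicit false

open Set Filter Topology

namespace Pool.Agent.Lib.MP_230119_an.EX

/-- Left endpoint: if `φ = p^(j+1) w → 0` at `α+`, `φ' = p^j g`, `g` bounded on `(α,β)` and `p`
comparable to `x-α` near `α`, then `w` is bounded near `α`. -/
theorem endpoint_left {α β : ℝ} (hαβ : α < β) (j : ℕ) {p w g φ : ℝ → ℝ} {c C B : ℝ} (hc : 0 < c)
    (hp : ∀ x ∈ Ioo α β, c * (x - α) ≤ |p x| ∧ |p x| ≤ C * (x - α))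
    (hφ : ∀ x ∈ Ioo α β, φ x = p x ^ (j + 1) * w x)
    (hφ' : ∀ x ∈ Ioo α β, HasDerivAt φ (p x ^ j * g x) x)
    (hg : ∀ x ∈ Ioo α β, |g x| ≤ B)
    (h0 : Tendsto φ (𝓝[>] α) (𝓝 0)) :
    ∃ B' : ℝ, ∀ x ∈ Ioo α β, |w x| ≤ B' := by
  have hC : 0 ≤ C := by
    have hm : (α + β) / 2 ∈ Ioo α β := ⟨by linarith, by linarith⟩
    have h1 := hp _ hm
    have h2 : 0 < (α + β) / 2 - α := by linarith
    have h3 : 0 ≤ C * ((α + β) / 2 - α) := (abs_nonneg _).trans h1.2
    by_contra h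
    push Not at h
    have := mul_neg_of_neg_of_pos h h2
    linarith
  refine ⟨C ^ j * B / c ^ (j + 1), fun x hx => ?_⟩
  have hB : 0 ≤ B := (abs_nonneg _).trans (hg x hx)
  have hxα : 0 < x - α := by linarith [hx.1]
  have key : ∀ y ∈ Ioo α x, |φ x - φ y| ≤ C ^ j * B * (x - α) ^ (j + 1) := by
    intro y hy
    have hsub : Icc y x ⊆ Ioo α β := fun t ht => ⟨hy.1.trans_le ht.1, ht.2.trans_lt hx.2⟩
    have hmv := Convex.norm_image_sub_le_of_norm_hasDerivWithin_le (f := φ)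
      (f' := fun t => p t ^ j * g t) (s := Icc y x) (C := (C * (x - α)) ^ j * B)
      (fun t ht => (hφ' t (hsub ht)).hasDerivWithinAt) (fun t ht => by
        have ht' := hsub ht
        rw [Real.norm_eq_abs, abs_mul, abs_pow]
        refine mul_le_mul ?_ (hg t ht') (abs_nonneg _) (by positivity)
        refine pow_le_pow_left₀ (abs_nonneg _) ?_ j
        refine (hp t ht').2.trans (mul_le_mul_of_nonneg_left ?_ hC)
        linarith [ht.2]) (convex_Icc y x) (left_mem_Icc.2 hy.2.le) (right_mem_Icc.2 hy.2.le)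
    rw [Real.norm_eq_abs, Real.norm_eq_abs, abs_of_pos (by linarith [hy.2] : 0 < x - y)] at hmv
    calc |φ x - φ y| ≤ (C * (x - α)) ^ j * B * (x - y) := hmv
      _ ≤ (C * (x - α)) ^ j * B * (x - α) :=
          mul_le_mul_of_nonneg_left (by linarith [hy.1]) (by positivity)
      _ = C ^ j * B * (x - α) ^ (j + 1) := by rw [mul_pow, pow_succ]; ring
  have hlim : |φ x| ≤ C ^ j * B * (x - α) ^ (j + 1) := by
    have h1 : Tendsto (fun y => |φ x - φ y|) (𝓝[>] α) (𝓝 |φ x - 0|) :=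
      (tendsto_const_nhds.sub h0).abs
    rw [sub_zero] at h1
    refine le_of_tendsto h1 ?_
    filter_upwards [Ioo_mem_nhdsGT hx.1] with y hy using key y hy
  have hpx := (hp x hx).1
  have hcx : 0 < c * (x - α) := by positivity
  have hpow : (c * (x - α)) ^ (j + 1) ≤ |p x| ^ (j + 1) := pow_le_pow_left₀ hcx.le hpx _
  rw [hφ x hx, abs_mul, abs_pow] at hlim
  have h1 : (c * (x - α)) ^ (j + 1) * |w x| ≤ C ^ j * B * (x - α) ^ (j + 1) :=
    (mul_le_mul_of_nonneg_right hpow (abs_nonneg _)).trans hlim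
  rw [le_div_iff₀ (by positivity)]
  have h2 : 0 < (x - α) ^ (j + 1) := by positivity
  refine le_of_mul_le_mul_right ?_ h2
  calc |w x| * c ^ (j + 1) * (x - α) ^ (j + 1) = (c * (x - α)) ^ (j + 1) * |w x| := by
        rw [mul_pow]; ring
    _ ≤ _ := h1

/-- Right endpoint. -/
theorem endpoint_right {α β : ℝ} (hαβ : α < β) (j : ℕ) {p w g φ : ℝ → ℝ} {c C B : ℝ} (hc : 0 < c)
    (hp : ∀ x ∈ Ioo α β, c * (β - x) ≤ |p x| ∧ |p x| ≤ C * (β - x))
    (hφ : ∀ x ∈ Ioo α β, φ x = p x ^ (j + 1) * w x)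
    (hφ' : ∀ x ∈ Ioo α β, HasDerivAt φ (p x ^ j * g x) x)
    (hg : ∀ x ∈ Ioo α β, |g x| ≤ B)
    (h0 : Tendsto φ (𝓝[<] β) (𝓝 0)) :
    ∃ B' : ℝ, ∀ x ∈ Ioo α β, |w x| ≤ B' := by
  have hm : ∀ x ∈ Ioo (-β) (-α), -x ∈ Ioo α β := fun x hx =>
    ⟨by linarith [hx.2], by linarith [hx.1]⟩
  obtain ⟨B', hB'⟩ := endpoint_left (α := -β) (β := -α) (by linarith) j
    (p := fun x => p (-x)) (w := fun x => w (-x)) (g := fun x => -g (-x)) (φ := fun x => φ (-x))
    (c := c) (C := C) (B := B) hc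
    (fun x hx => by
      have h := hp _ (hm x hx)
      have e : β - -x = x - -β := by ring
      rw [e] at h
      exact h)
    (fun x hx => hφ _ (hm x hx))
    (fun x hx => by
      have h := HasDerivAt.comp x (hφ' _ (hm x hx)) (hasDerivAt_neg x)
      have e : p (-x) ^ j * -g (-x) = p (-x) ^ j * g (-x) * -1 := by ring
      rw [e]
      exact h)
    (fun x hx => by rw [abs_neg]; exact hg _ (hm x hx))
    (h0.comp tendsto_neg_nhdsGT_neg)
  exact ⟨B', fun x hx => by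
    have h := hB' (-x) ⟨by linarith [hx.2], by linarith [hx.1]⟩
    rw [neg_neg] at h
    exact h⟩

/-- A continuous function on `(α,β)`, bounded near both ends, is bounded. -/
theorem bounded_of_ends {α β : ℝ} {f : ℝ → ℝ} (hf : ContinuousOn f (Ioo α β))
    (h1 : ∃ B : ℝ, ∀ᶠ x in 𝓝[>] α, |f x| ≤ B) (h2 : ∃ B : ℝ, ∀ᶠ x in 𝓝[<] β, |f x| ≤ B) :
    ∃ B : ℝ, ∀ x ∈ Ioo α β, |f x| ≤ B := by
  rcases le_or_gt β α with hba | hab
  · exact ⟨0, fun x hx => absurd (hx.1.trans hx.2) (not_lt.2 hba)⟩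
  obtain ⟨B1, h1⟩ := h1
  obtain ⟨B2, h2⟩ := h2
  obtain ⟨u, hu, hu'⟩ := (mem_nhdsGT_iff_exists_Ioo_subset' hab).1 h1
  obtain ⟨l, hl, hl'⟩ := (mem_nhdsLT_iff_exists_Ioo_subset' hab).1 h2
  set u' : ℝ := (α + min u β) / 2 with hu'def
  set l' : ℝ := (β + max l α) / 2 with hl'def
  have hmu : α < min u β := lt_min hu hab
  have hml : max l α < β := max_lt hl hab
  have hu1 : α < u' := by rw [hu'def]; linarith
  have hu2 : u' < min u β := by rw [hu'def]; linarith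
  have hl1 : l' < β := by rw [hl'def]; linarith
  have hl2 : max l α < l' := by rw [hl'def]; linarith
  have hcomp : IsCompact (Icc u' l') := isCompact_Icc
  have hsub : Icc u' l' ⊆ Ioo α β := fun x hx => ⟨hu1.trans_le hx.1, hx.2.trans_lt hl1⟩
  obtain ⟨B3, hB3⟩ := hcomp.exists_bound_of_continuousOn (hf.mono hsub)
  refine ⟨max B1 (max B2 B3), fun x hx => ?_⟩
  by_cases hxu : x < u'
  · have : x ∈ {x | |f x| ≤ B1} := hu' ⟨hx.1, hxu.trans (hu2.trans_le (min_le_left _ _))⟩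
    exact le_trans this (le_max_left _ _)
  by_cases hxl : l' < x
  · have : x ∈ {x | |f x| ≤ B2} := hl' ⟨((le_max_left _ _).trans_lt hl2).trans hxl, hx.2⟩
    exact le_trans this ((le_max_left _ _).trans (le_max_right _ _))
  · have := hB3 x ⟨not_lt.1 hxu, not_lt.1 hxl⟩
    rw [Real.norm_eq_abs] at this
    exact this.trans ((le_max_right _ _).trans (le_max_right _ _))

end Pool.Agent.Lib.MP_230119_an.EX
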