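import Pool.Agent.Lib.MP_230119_an.SGDef2

/-!
# Definitions for the sharp endpoint Stein-Tomas inequality on the circle
-/

set_option autoImplicit false

open MeasureTheory Set Filter Topology
open scoped ENNReal

namespace Pool.Agent.Lib.MP_230119_an.EX

/-- `|e^{ia}+e^{ib}+e^{ic}|² - 1` -/
noncomputable def rho (a b c : ℝ) : ℝ :=
  2 + 2 * (Real.cos (a - b) + Real.cos (b - c) + Real.cos (c - a))

/-- the second symmetric trigonometric polynomial -/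
noncomputable def chi (a b c : ℝ) : ℝ :=
  Real.cos (2 * a - b - c) + Real.cos (2 * b - c - a) + Real.cos (2 * c - a - b)

/-- a quarter of the squared Vandermonde -/
noncomputable def DD (a b c : ℝ) : ℝ :=
  (Real.sin (a - b) + Real.sin (b - c) + Real.sin (c - a)) ^ 2

/-- the cubic `x (x+1) (x-8)` -/
def pp (x : ℝ) : ℝ := x * (x + 1) * (x - 8)

/-- the cubic `s³-23s²+123s+219`, `s = 1+x` -/
def pq (x : ℝ) : ℝ := (1 + x) ^ 3 - 23 * (1 + x) ^ 2 + 123 * (1 + x) + 219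

/-- the weight of a split `{a,b,c}`, `{a',b',c'}` -/
noncomputable def wt (a b c a' b' c' : ℝ) : ℝ :=
  rho a b c ^ 2 / 36864 *
    (3 * pq (rho a b c) + 10 * (8 - rho a b c) * (DD a b c + DD a' b' c'))

/-- The facts about the density `G` of `rho` and `u = p G'` which are used. -/
structure GF (G u : ℝ → ℝ) : Prop where
  measG : Measurable G
  measU : Measurable u
  hG : ∀ x ∈ Ioo (-1 : ℝ) 8, x ≠ 0 → HasDerivAt G (u x / pp x) x
  hu : ∀ x ∈ Ioo (-1 : ℝ) 8, x ≠ 0 → HasDerivAt u ((2 - x) * G x) x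
  pos : ∀ x ∈ Ioo (-1 : ℝ) 8, x ≠ 0 → 0 < G x
  bdd : ∃ C : ℝ, ∀ x ∈ Ioo (-1 : ℝ) 8, x ≤ -(1 / 2) ∨ 1 ≤ x → G x ≤ C
  lim0 : Tendsto u (𝓝[≠] 0) (𝓝 8)
  lim1 : Tendsto u (𝓝[>] (-1)) (𝓝 0)
  lim8 : Tendsto u (𝓝[<] 8) (𝓝 0)
  limL : ∃ L : ℝ, Tendsto (fun x => G x + Real.log |x|) (𝓝[≠] 0) (𝓝 L)

/-- the kernel as a function of `x = rho` and `y = chi` -/
noncomputable def K0 (G u : ℝ → ℝ) (x y : ℝ) : ℝ :=
  x ^ 2 * ((560 - 90 * x + 15 * x ^ 2 - x ^ 3 + 10 * (8 - x) * y) * G x + 5 * (8 - x) * u x)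

/-- the kernel on the torus -/
noncomputable def KK (G u : ℝ → ℝ) (a b c : ℝ) : ℝ := K0 G u (rho a b c) (chi a b c)

/-- the measure on the three-dimensional torus -/
noncomputable def mc3 : Measure (ℝ × ℝ × ℝ) := mc.prod (mc.prod mc)

/-- the trilinear form on the diagonal -/
noncomputable def TK (G u : ℝ → ℝ) (h : ℝ → ℝ) : ℝ :=
  ∫ q, KK G u q.1 q.2.1 q.2.2 * (h q.1 * h q.2.1 * h q.2.2) ∂mc3

/-- `h` is the trigonometric polynomial of period `π` with coefficients `a` and degree `≤ N` -/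
def IsTP (N : ℕ) (a : ℤ → ℂ) (h : ℝ → ℝ) : Prop :=
  ∀ t : ℝ, ((h t : ℝ) : ℂ) =
    ∑ k ∈ Finset.Icc (-(N : ℤ)) N, a k * Complex.exp (2 * (k : ℂ) * (t : ℂ) * Complex.I)

/-- the main inequality for trigonometric polynomials -/
def Star (G u : ℝ → ℝ) : Prop :=
  ∀ (N : ℕ) (a : ℤ → ℂ) (h : ℝ → ℝ), IsTP N a h → (∀ t, 0 ≤ h t) →
    TK G u h * (2 * Real.pi) ^ 3 ≤ TK G u (fun _ => 1) * (∫ t, h t ∂mc) ^ 3

end Pool.Agent.Lib.MP_230119_an.EX
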