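import Pool.Agent.Lib.MP_230119_an.Mg.G001

/-!
# The function `G` by an explicit integral: definitions
-/

set_option autoImplicit false

open Set Filter Topology MeasureTheory

namespace Pool.Agent.Lib.MP_230119_an.EX

/-- `2 cosh t - 2` -/
noncomputable def kk (t : ℝ) : ℝ := 2 * Real.cosh t - 2

/-- the polynomial under the root: `(2cosh t+x)² - 4(1+x) = k² + (4+2x) k + x²`, `k = 2cosh t-2` -/
noncomputable def Dt (x t : ℝ) : ℝ := kk t ^ 2 + (4 + 2 * x) * kk t + x ^ 2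

/-- the integrand of `G` -/
noncomputable def g0 (x t : ℝ) : ℝ := 2 / Real.sqrt (Dt x t)
/-- its first `x`-derivative -/
noncomputable def g1 (x t : ℝ) : ℝ := -2 * (kk t + x) / (Dt x t * Real.sqrt (Dt x t))
/-- its second `x`-derivative -/
noncomputable def g2 (x t : ℝ) : ℝ :=
  -2 / (Dt x t * Real.sqrt (Dt x t)) + 6 * (kk t + x) ^ 2 / (Dt x t ^ 2 * Real.sqrt (Dt x t))

/-- `G` -/
noncomputable def G0 (x : ℝ) : ℝ := ∫ t in Ioi (0 : ℝ), g0 x t
/-- `G'` -/
noncomputable def G1 (x : ℝ) : ℝ := ∫ t in Ioi (0 : ℝ), g1 x t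
/-- `G''` -/
noncomputable def G2 (x : ℝ) : ℝ := ∫ t in Ioi (0 : ℝ), g2 x t
/-- `u = p G'` -/
noncomputable def U0 (x : ℝ) : ℝ := pp x * G1 x

end Pool.Agent.Lib.MP_230119_an.EX
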