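import Pool.Agent.Lib.MP_230119_an.EX.G01

/-!
# Differentiation under the integral
-/

set_option autoImplicit false

open Set Filter Topology MeasureTheory

namespace Pool.Agent.Lib.MP_230119_an.EX

theorem G02_sqrt_ge {m x : ℝ} (hm0 : 0 < m) (hm1 : m ≤ 1) (hm : m ≤ |x|) (hx : -(3 / 2) ≤ x)
    (t : ℝ) : m * (1 + t ^ 2) / 2 ≤ Real.sqrt (Dt x t) := by
  apply Real.le_sqrt_of_sq_le
  have h1 := Dt_ge' hx t
  have h2 : m ^ 2 ≤ x ^ 2 := by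
    rw [← sq_abs x]
    exact pow_le_pow_left₀ hm0.le hm 2
  have h3 : m ^ 2 ≤ 1 := by nlinarith
  have h4 : m ^ 2 * t ^ 4 ≤ t ^ 4 := by
    have : 0 ≤ t ^ 4 := by positivity
    nlinarith
  have h5 : m ^ 2 * t ^ 2 ≤ t ^ 2 := by
    have : 0 ≤ t ^ 2 := by positivity
    nlinarith
  nlinarith [sq_nonneg (m * t ^ 2), sq_nonneg m, sq_nonneg (m * t)]

theorem G02_D_ge {m x : ℝ} (hm0 : 0 < m) (hm1 : m ≤ 1) (hm : m ≤ |x|) (hx : -(3 / 2) ≤ x)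
    (t : ℝ) : (m * (1 + t ^ 2) / 2) ^ 2 ≤ Dt x t := by
  have h0 : x ≠ 0 := by
    rintro rfl
    simp at hm
    linarith
  have h1 := G02_sqrt_ge hm0 hm1 hm hx t
  have h2 : 0 ≤ m * (1 + t ^ 2) / 2 := by positivity
  calc (m * (1 + t ^ 2) / 2) ^ 2 ≤ (Real.sqrt (Dt x t)) ^ 2 := pow_le_pow_left₀ h2 h1 2
    _ = Dt x t := Real.sq_sqrt (Dt_pos hx h0 t).le

theorem G02_g0_le {m x : ℝ} (hm0 : 0 < m) (hm1 : m ≤ 1) (hm : m ≤ |x|) (hx : -(3 / 2) ≤ x)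
    (t : ℝ) : ‖g0 x t‖ ≤ 4 / m * (1 + t ^ 2)⁻¹ := by
  have h1 := G02_sqrt_ge hm0 hm1 hm hx t
  have h2 : 0 < m * (1 + t ^ 2) / 2 := by positivity
  have h3 : 0 < Real.sqrt (Dt x t) := lt_of_lt_of_le h2 h1
  rw [Real.norm_eq_abs, g0, abs_of_pos (by positivity)]
  calc 2 / Real.sqrt (Dt x t) ≤ 2 / (m * (1 + t ^ 2) / 2) :=
        div_le_div_of_nonneg_left (by norm_num) h2 h1
    _ = 4 / m * (1 + t ^ 2)⁻¹ := by
        field_simp
        ring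

theorem G02_g1_le {m x : ℝ} (hm0 : 0 < m) (hm1 : m ≤ 1) (hm : m ≤ |x|) (hx : -(3 / 2) ≤ x)
    (t : ℝ) : ‖g1 x t‖ ≤ 12 / m ^ 2 * (1 + t ^ 2)⁻¹ := by
  have h0 : x ≠ 0 := by
    rintro rfl
    simp at hm
    linarith
  have h1 := G02_D_ge hm0 hm1 hm hx t
  have h2 : 0 < m * (1 + t ^ 2) / 2 := by positivity
  have h5 : (1 : ℝ) ≤ 1 + t ^ 2 := by nlinarith [sq_nonneg t]
  rw [Real.norm_eq_abs]
  calc |g1 x t| ≤ 3 / Dt x t := g1_le hx h0 t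
    _ ≤ 3 / (m * (1 + t ^ 2) / 2) ^ 2 := div_le_div_of_nonneg_left (by norm_num) (by positivity) h1
    _ ≤ 3 / (m ^ 2 * (1 + t ^ 2) / 4) := by
        apply div_le_div_of_nonneg_left (by norm_num) (by positivity)
        have : m ^ 2 * (1 + t ^ 2) ≤ m ^ 2 * (1 + t ^ 2) * (1 + t ^ 2) :=
          le_mul_of_one_le_right (by positivity) h5
        nlinarith
    _ = 12 / m ^ 2 * (1 + t ^ 2)⁻¹ := by
        field_simp
        norm_num

theorem G02_g2_le {m x : ℝ} (hm0 : 0 < m) (hm1 : m ≤ 1) (hm : m ≤ |x|) (hx : -(3 / 2) ≤ x)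
    (t : ℝ) : ‖g2 x t‖ ≤ 112 / m ^ 3 * (1 + t ^ 2)⁻¹ := by
  have h0 : x ≠ 0 := by
    rintro rfl
    simp at hm
    linarith
  have h1 := G02_D_ge hm0 hm1 hm hx t
  have h1' := G02_sqrt_ge hm0 hm1 hm hx t
  have h2 : 0 < m * (1 + t ^ 2) / 2 := by positivity
  have h5 : (1 : ℝ) ≤ 1 + t ^ 2 := by nlinarith [sq_nonneg t]
  have h6 : (m * (1 + t ^ 2) / 2) ^ 3 ≤ Dt x t * Real.sqrt (Dt x t) := by
    rw [pow_succ]
    exact mul_le_mul h1 h1' h2.le (Dt_pos hx h0 t).le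
  have h7 : (1 + t ^ 2) ≤ (1 + t ^ 2) ^ 3 := by
    calc (1 + t ^ 2) = (1 + t ^ 2) ^ 1 := (pow_one _).symm
      _ ≤ (1 + t ^ 2) ^ 3 := pow_le_pow_right₀ h5 (by norm_num)
  rw [Real.norm_eq_abs]
  calc |g2 x t| ≤ 14 / (Dt x t * Real.sqrt (Dt x t)) := g2_le hx h0 t
    _ ≤ 14 / (m * (1 + t ^ 2) / 2) ^ 3 := div_le_div_of_nonneg_left (by norm_num) (by positivity) h6
    _ ≤ 14 / (m ^ 3 * (1 + t ^ 2) / 8) := by
        apply div_le_div_of_nonneg_left (by norm_num) (by positivity)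
        have : m ^ 3 * (1 + t ^ 2) ≤ m ^ 3 * (1 + t ^ 2) ^ 3 :=
          mul_le_mul_of_nonneg_left h7 (by positivity)
        calc m ^ 3 * (1 + t ^ 2) / 8 ≤ m ^ 3 * (1 + t ^ 2) ^ 3 / 8 := by linarith
          _ = (m * (1 + t ^ 2) / 2) ^ 3 := by ring
    _ = 112 / m ^ 3 * (1 + t ^ 2)⁻¹ := by
        field_simp
        norm_num

theorem G02_kk_meas : Measurable fun q : ℝ × ℝ => kk q.2 := by
  unfold kk
  exact ((Real.measurable_cosh.comp measurable_snd).const_mul 2).sub_const 2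

theorem G02_Dt_meas : Measurable fun q : ℝ × ℝ => Dt q.1 q.2 := by
  unfold Dt
  have h := G02_kk_meas
  exact ((h.pow_const 2).add (((measurable_fst.const_mul 2).const_add 4).mul h)).add
    (measurable_fst.pow_const 2)

theorem G02_g0_meas : Measurable fun q : ℝ × ℝ => g0 q.1 q.2 := by
  unfold g0
  exact (Real.continuous_sqrt.measurable.comp G02_Dt_meas).const_div 2

theorem G02_g1_meas : Measurable fun q : ℝ × ℝ => g1 q.1 q.2 := by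
  unfold g1
  have h := G02_Dt_meas
  have h' := Real.continuous_sqrt.measurable.comp G02_Dt_meas
  exact ((G02_kk_meas.add measurable_fst).const_mul (-2)).div (h.mul h')

theorem G02_g2_meas : Measurable fun q : ℝ × ℝ => g2 q.1 q.2 := by
  unfold g2
  have h := G02_Dt_meas
  have h' := Real.continuous_sqrt.measurable.comp G02_Dt_meas
  exact ((h.mul h').const_div (-2)).add
    ((((G02_kk_meas.add measurable_fst).pow_const 2).const_mul 6).div ((h.pow_const 2).mul h'))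

theorem G02_aesm {g : ℝ → ℝ → ℝ} (hg : Measurable fun q : ℝ × ℝ => g q.1 q.2) (x : ℝ) :
    AEStronglyMeasurable (g x) (volume.restrict (Ioi (0 : ℝ))) := by
  have : Measurable (g x) := hg.comp (measurable_const.prodMk measurable_id)
  exact this.aestronglyMeasurable

theorem G02_bd_int (c : ℝ) : IntegrableOn (fun t : ℝ => c * (1 + t ^ 2)⁻¹) (Ioi (0 : ℝ)) :=
  (integrable_inv_one_add_sq.const_mul c).integrableOn

theorem G02_int {g : ℝ → ℝ → ℝ} (hg : Measurable fun q : ℝ × ℝ => g q.1 q.2) (x c : ℝ)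
    (hc : ∀ t, ‖g x t‖ ≤ c * (1 + t ^ 2)⁻¹) : IntegrableOn (g x) (Ioi (0 : ℝ)) :=
  Integrable.mono' (G02_bd_int c) (G02_aesm hg x) (Eventually.of_forall hc)

theorem G02_m {x : ℝ} (h0 : x ≠ 0) : 0 < min 1 |x| ∧ min 1 |x| ≤ 1 ∧ min 1 |x| ≤ |x| :=
  ⟨lt_min one_pos (abs_pos.2 h0), min_le_left _ _, min_le_right _ _⟩

theorem g0_int {x : ℝ} (hx : -(3 / 2) ≤ x) (h0 : x ≠ 0) : IntegrableOn (g0 x) (Ioi (0 : ℝ)) := by
  obtain ⟨h1, h2, h3⟩ := G02_m h0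
  exact G02_int G02_g0_meas x _ fun t => G02_g0_le h1 h2 h3 hx t

theorem g1_int {x : ℝ} (hx : -(3 / 2) ≤ x) (h0 : x ≠ 0) : IntegrableOn (g1 x) (Ioi (0 : ℝ)) := by
  obtain ⟨h1, h2, h3⟩ := G02_m h0
  exact G02_int G02_g1_meas x _ fun t => G02_g1_le h1 h2 h3 hx t

theorem g2_int {x : ℝ} (hx : -(3 / 2) ≤ x) (h0 : x ≠ 0) : IntegrableOn (g2 x) (Ioi (0 : ℝ)) := by
  obtain ⟨h1, h2, h3⟩ := G02_m h0
  exact G02_int G02_g2_meas x _ fun t => G02_g2_le h1 h2 h3 hx t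

theorem G02_nhds {x : ℝ} (hx : -(3 / 2) < x) (h0 : x ≠ 0) :
    ∃ m : ℝ, 0 < m ∧ m ≤ 1 ∧ ∃ ε : ℝ, 0 < ε ∧
      ∀ y ∈ Metric.ball x ε, m ≤ |y| ∧ -(3 / 2) ≤ y ∧ y ≠ 0 := by
  have hx0 : 0 < |x| := abs_pos.2 h0
  refine ⟨min 1 (|x| / 2), lt_min one_pos (by positivity), min_le_left _ _,
    min (|x| / 2) (x + 3 / 2), lt_min (by positivity) (by linarith), fun y hy => ?_⟩
  rw [Metric.mem_ball, Real.dist_eq] at hy
  have h1 : |y - x| < |x| / 2 := lt_of_lt_of_le hy (min_le_left _ _)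
  have h2 : |y - x| < x + 3 / 2 := lt_of_lt_of_le hy (min_le_right _ _)
  have h3 : |x| / 2 ≤ |y| := by
    have : |x| ≤ |y - x| + |y| := by
      calc |x| = |-(y - x) + y| := by ring_nf
        _ ≤ |-(y - x)| + |y| := abs_add_le _ _
        _ = |y - x| + |y| := by rw [abs_neg]
    linarith
  refine ⟨(min_le_right _ _).trans h3, ?_, ?_⟩
  · have := (abs_lt.1 h2).1
    linarith
  · rintro rfl
    rw [abs_zero] at h3
    linarith

theorem G02_deriv {g g' : ℝ → ℝ → ℝ} (hg : Measurable fun q : ℝ × ℝ => g q.1 q.2)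
    (hg' : Measurable fun q : ℝ × ℝ => g' q.1 q.2) {x : ℝ} (hx : -(3 / 2) < x) (h0 : x ≠ 0)
    (hint : IntegrableOn (g x) (Ioi (0 : ℝ)))
    (hd : ∀ y : ℝ, -(3 / 2) ≤ y → y ≠ 0 → ∀ t, HasDerivAt (fun y => g y t) (g' y t) y)
    (C : ℝ → ℝ)
    (hb : ∀ m y : ℝ, 0 < m → m ≤ 1 → m ≤ |y| → -(3 / 2) ≤ y → ∀ t,
      ‖g' y t‖ ≤ C m * (1 + t ^ 2)⁻¹) :
    HasDerivAt (fun y => ∫ t in Ioi (0 : ℝ), g y t) (∫ t in Ioi (0 : ℝ), g' x t) x := by
  obtain ⟨m, hm0, hm1, ε, hε, H⟩ := G02_nhds hx h0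
  exact (hasDerivAt_integral_of_dominated_loc_of_deriv_le
    (μ := volume.restrict (Ioi (0 : ℝ))) (F := g) (F' := g') (x₀ := x)
    (bound := fun t => C m * (1 + t ^ 2)⁻¹) (Metric.ball_mem_nhds x hε)
    (Eventually.of_forall fun y => G02_aesm hg y) hint (G02_aesm hg' x)
    (Eventually.of_forall fun t y hy => hb m y hm0 hm1 (H y hy).1 (H y hy).2.1 t)
    (G02_bd_int _)
    (Eventually.of_forall fun t y hy => hd y (H y hy).2.1 (H y hy).2.2 t)).2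

theorem G0_deriv {x : ℝ} (hx : -(3 / 2) < x) (h0 : x ≠ 0) : HasDerivAt G0 (G1 x) x :=
  G02_deriv G02_g0_meas G02_g1_meas hx h0 (g0_int hx.le h0) (fun _ h1 h2 t => g0_deriv h1 h2 t)
    (fun m => 12 / m ^ 2) fun _ _ h1 h2 h3 h4 t => G02_g1_le h1 h2 h3 h4 t

theorem G1_deriv {x : ℝ} (hx : -(3 / 2) < x) (h0 : x ≠ 0) : HasDerivAt G1 (G2 x) x :=
  G02_deriv G02_g1_meas G02_g2_meas hx h0 (g1_int hx.le h0) (fun _ h1 h2 t => g1_deriv h1 h2 t)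
    (fun m => 112 / m ^ 3) fun _ _ h1 h2 h3 h4 t => G02_g2_le h1 h2 h3 h4 t

theorem G0_meas : Measurable G0 := by
  have h : StronglyMeasurable (Function.uncurry g0) := G02_g0_meas.stronglyMeasurable
  exact (h.integral_prod_right (ν := volume.restrict (Ioi (0 : ℝ)))).measurable

theorem G1_meas : Measurable G1 := by
  have h : StronglyMeasurable (Function.uncurry g1) := G02_g1_meas.stronglyMeasurable
  exact (h.integral_prod_right (ν := volume.restrict (Ioi (0 : ℝ)))).measurable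

end Pool.Agent.Lib.MP_230119_an.EX
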