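import Pool.Agent.Lib.MP_230119_an.EX.G02

/-!
# The differential equation
-/

set_option autoImplicit false

open Set Filter Topology MeasureTheory

namespace Pool.Agent.Lib.MP_230119_an.EX

/-- the primitive in `t` -/
noncomputable def gprim (x t : ℝ) : ℝ :=
  4 * ((2 - x) * (2 * Real.cosh t) - (x ^ 2 + 2 * x + 4)) * Real.sinh t
    / (Dt x t * Real.sqrt (Dt x t))

private theorem G03_core (x C : ℝ) :
    (4 * ((2 - x) * 2) * (C ^ 2 - 1) + 4 * ((2 - x) * (2 * C) - (x ^ 2 + 2 * x + 4)) * C)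
      * ((2 * C - 2) ^ 2 + (4 + 2 * x) * (2 * C - 2) + x ^ 2)
      - 3 / 2 * (4 * ((2 - x) * (2 * C) - (x ^ 2 + 2 * x + 4)) * (4 * (2 * C + x)) * (C ^ 2 - 1))
    = x * (x + 1) * (x - 8) * (-2 * ((2 * C - 2) ^ 2 + (4 + 2 * x) * (2 * C - 2) + x ^ 2)
        + 6 * (2 * C - 2 + x) ^ 2)
      + (3 * x ^ 2 - 14 * x - 8) * (-2 * (2 * C - 2 + x))
        * ((2 * C - 2) ^ 2 + (4 + 2 * x) * (2 * C - 2) + x ^ 2)
      + 2 * (x - 2) * ((2 * C - 2) ^ 2 + (4 + 2 * x) * (2 * C - 2) + x ^ 2) ^ 2 := by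
  ring

private theorem G03_alg {N N' D D' s p p1 k x : ℝ} (hs : 0 < s) (hD : D = s ^ 2)
    (h : N' * D - 3 / 2 * (N * D') = p * (-2 * D + 6 * (k + x) ^ 2) + p1 * (-2 * (k + x)) * D
      + 2 * (x - 2) * D ^ 2) :
    (N' * (D * s) - N * (D' * s + D * (D' / (2 * s)))) / (D * s) ^ 2
      = p * (-2 / (D * s) + 6 * (k + x) ^ 2 / (D ^ 2 * s)) + p1 * (-2 * (k + x) / (D * s))
        + (x - 2) * (2 / s) := by
  subst hD
  have hs' : s ≠ 0 := hs.ne'
  have e1 : (N' * (s ^ 2 * s) - N * (D' * s + s ^ 2 * (D' / (2 * s)))) / (s ^ 2 * s) ^ 2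
      = (N' * s ^ 2 - 3 / 2 * (N * D')) / s ^ 5 := by
    field_simp
    ring
  rw [e1, h]
  field_simp

theorem gprim_deriv {x : ℝ} (hx : -(3 / 2) ≤ x) (h0 : x ≠ 0) (t : ℝ) :
    HasDerivAt (fun t => gprim x t) (pp x * g2 x t + pp1 x * g1 x t + (x - 2) * g0 x t) t := by
  have hpos := Dt_pos hx h0 t
  have hc := Real.hasDerivAt_cosh t
  have hsh := Real.hasDerivAt_sinh t
  have hk : HasDerivAt (fun t => kk t) (2 * Real.sinh t) t := by
    unfold kk
    exact (hc.const_mul 2).sub_const 2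
  have hDt : HasDerivAt (fun t => Dt x t)
      (2 * kk t * (2 * Real.sinh t) + (4 + 2 * x) * (2 * Real.sinh t)) t := by
    unfold Dt
    have h := ((hk.pow 2).add (hk.const_mul (4 + 2 * x))).add_const (x ^ 2)
    refine h.congr_deriv ?_
    simp
  have hsq := hDt.sqrt hpos.ne'
  have hN : HasDerivAt (fun t => 4 * ((2 - x) * (2 * Real.cosh t) - (x ^ 2 + 2 * x + 4))
      * Real.sinh t) (4 * ((2 - x) * (2 * Real.sinh t)) * Real.sinh t
      + 4 * ((2 - x) * (2 * Real.cosh t) - (x ^ 2 + 2 * x + 4)) * Real.cosh t) t := by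
    have h1 := (((hc.const_mul 2).const_mul (2 - x)).sub_const (x ^ 2 + 2 * x + 4)).const_mul 4
    exact h1.mul hsh
  have hden := hDt.mul hsq
  have hq := hN.div hden (mul_pos hpos (Real.sqrt_pos.2 hpos)).ne'
  refine hq.congr_deriv ?_
  have hsS : Real.sinh t ^ 2 = Real.cosh t ^ 2 - 1 := Real.sinh_sq t
  refine G03_alg (Real.sqrt_pos.2 hpos) (Real.sq_sqrt hpos.le).symm ?_
  have hcore := G03_core x (Real.cosh t)
  unfold pp pp1 Dt kk
  linear_combination hcore + (8 * (2 - x) * ((2 * Real.cosh t - 2) ^ 2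
    + (4 + 2 * x) * (2 * Real.cosh t - 2) + x ^ 2)
    - 24 * ((2 - x) * (2 * Real.cosh t) - (x ^ 2 + 2 * x + 4)) * (2 * Real.cosh t + x)) * hsS

theorem gprim_lim {x : ℝ} (hx : -(3 / 2) ≤ x) (h0 : x ≠ 0) :
    Tendsto (fun t => gprim x t) atTop (𝓝 0) := by
  have hcosh : Tendsto Real.cosh atTop atTop := by
    refine tendsto_atTop_mono (fun t => ?_) (Real.tendsto_exp_atTop.atTop_div_const two_pos)
    rw [Real.cosh_eq]
    have := (Real.exp_pos (-t)).le
    linarith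
  set A : ℝ := 4 * (|2 - x| * 2 + |x ^ 2 + 2 * x + 4|) with hA
  have hlim : Tendsto (fun t => A / Real.cosh t) atTop (𝓝 0) := hcosh.const_div_atTop A
  refine squeeze_zero_norm' ?_ hlim
  filter_upwards [hcosh.eventually_ge_atTop 2] with t ht
  rw [Real.norm_eq_abs]
  set C := Real.cosh t with hC
  have hpos := Dt_pos hx h0 t
  have hS : |Real.sinh t| ≤ C := by
    rw [abs_le]
    constructor
    · have := Real.exp_pos t
      rw [hC, Real.sinh_eq, Real.cosh_eq]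
      linarith
    · have := Real.exp_pos (-t)
      rw [hC, Real.sinh_eq, Real.cosh_eq]
      linarith
  have hk : C ≤ kk t := by
    unfold kk
    linarith
  have hD : C ^ 2 ≤ Dt x t := by
    have h1 := Dt_ge hx t
    have h2 : C ^ 2 ≤ kk t ^ 2 := by nlinarith
    nlinarith [sq_nonneg x]
  have hs : C ≤ Real.sqrt (Dt x t) := Real.le_sqrt_of_sq_le hD
  have hden : C ^ 3 ≤ Dt x t * Real.sqrt (Dt x t) := by
    calc C ^ 3 = C ^ 2 * C := by ring
      _ ≤ _ := mul_le_mul hD hs (by linarith) hpos.le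
  have hC3 : (0 : ℝ) < C ^ 3 := by positivity
  have hnum : |4 * ((2 - x) * (2 * C) - (x ^ 2 + 2 * x + 4)) * Real.sinh t| ≤ A * C ^ 2 := by
    rw [abs_mul, abs_mul, abs_of_pos (by norm_num : (0 : ℝ) < 4)]
    have h1 : |(2 - x) * (2 * C) - (x ^ 2 + 2 * x + 4)|
        ≤ (|2 - x| * 2 + |x ^ 2 + 2 * x + 4|) * C := by
      calc _ ≤ |(2 - x) * (2 * C)| + |x ^ 2 + 2 * x + 4| := abs_sub _ _
        _ = |2 - x| * 2 * C + |x ^ 2 + 2 * x + 4| := by
            rw [abs_mul, abs_of_pos (by linarith : (0 : ℝ) < 2 * C)]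
            ring
        _ ≤ |2 - x| * 2 * C + |x ^ 2 + 2 * x + 4| * C := by
            have := abs_nonneg (x ^ 2 + 2 * x + 4)
            nlinarith
        _ = _ := by ring
    calc 4 * |(2 - x) * (2 * C) - (x ^ 2 + 2 * x + 4)| * |Real.sinh t|
        ≤ 4 * ((|2 - x| * 2 + |x ^ 2 + 2 * x + 4|) * C) * C := by
          refine mul_le_mul ?_ hS (abs_nonneg _) (by positivity)
          linarith
      _ = A * C ^ 2 := by rw [hA]; ring
  unfold gprim
  rw [abs_div, abs_of_pos (mul_pos hpos (Real.sqrt_pos.2 hpos))]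
  calc _ ≤ A * C ^ 2 / C ^ 3 := div_le_div₀ (by positivity) hnum hC3 hden
    _ = A / C := by
      field_simp

theorem G_ode {x : ℝ} (hx : -(3 / 2) ≤ x) (h0 : x ≠ 0) :
    pp x * G2 x + pp1 x * G1 x + (x - 2) * G0 x = 0 := by
  have h2 := (g2_int hx h0).const_mul (pp x)
  have h1 := (g1_int hx h0).const_mul (pp1 x)
  have h3 := (g0_int hx h0).const_mul (x - 2)
  have hint : IntegrableOn (fun t => pp x * g2 x t + pp1 x * g1 x t + (x - 2) * g0 x t)
      (Ioi (0 : ℝ)) := (h2.add h1).add h3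
  have h := integral_Ioi_of_hasDerivAt_of_tendsto (a := 0)
    (gprim_deriv hx h0 0).continuousAt.continuousWithinAt
    (fun t _ => gprim_deriv hx h0 t) hint (gprim_lim hx h0)
  have e0 : gprim x 0 = 0 := by
    unfold gprim
    simp
  rw [e0, sub_zero] at h
  rw [← h]
  unfold G0 G1 G2
  have e1 : ∫ t in Ioi (0 : ℝ), (pp x * g2 x t + pp1 x * g1 x t + (x - 2) * g0 x t)
      = (∫ t in Ioi (0 : ℝ), pp x * g2 x t) + (∫ t in Ioi (0 : ℝ), pp1 x * g1 x t)
        + ∫ t in Ioi (0 : ℝ), (x - 2) * g0 x t := by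
    have h21 : Integrable (fun t => pp x * g2 x t + pp1 x * g1 x t)
        (volume.restrict (Ioi (0 : ℝ))) := h2.add h1
    rw [integral_add h21 h3, integral_add h2 h1]
  rw [e1, integral_const_mul, integral_const_mul, integral_const_mul]

end Pool.Agent.Lib.MP_230119_an.EX
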