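import Pool.Agent.Lib.MP_230119_an.EX.G02

/-!
# The limit of `u` at `0`
-/

set_option autoImplicit false

open Set Filter Topology MeasureTheory

namespace Pool.Agent.Lib.MP_230119_an.EX

private theorem G04_kk_meas : Measurable kk := by
  unfold kk
  exact (Real.measurable_cosh.const_mul 2).sub_const 2

private theorem G04_Dt_meas (x : ℝ) : Measurable (Dt x) := by
  unfold Dt
  exact ((G04_kk_meas.pow_const 2).add (G04_kk_meas.const_mul (4 + 2 * x))).add_const (x ^ 2)

private theorem G04_den_meas (x : ℝ) : Measurable fun t => Dt x t * Real.sqrt (Dt x t) :=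
  (G04_Dt_meas x).mul (Real.continuous_sqrt.measurable.comp (G04_Dt_meas x))

private theorem G04_kk_nonneg (t : ℝ) : 0 ≤ kk t := (sq_nonneg t).trans (kk_ge t)

private theorem G04_ev : ∀ᶠ x : ℝ in 𝓝[≠] 0, -(3 / 2) ≤ x ∧ x ≠ 0 := by
  have h1 : ∀ᶠ x : ℝ in 𝓝[≠] 0, x ∈ Ioi (-(3 / 2) : ℝ) :=
    nhdsWithin_le_nhds (Ioi_mem_nhds (by norm_num))
  filter_upwards [h1, self_mem_nhdsWithin] with x hx hx'
  exact ⟨le_of_lt hx, hx'⟩

private theorem G04_abs_le {x : ℝ} (hx : -(3 / 2) ≤ x) (t : ℝ) : |x| ≤ Real.sqrt (Dt x t) := by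
  refine Real.le_sqrt_of_sq_le ?_
  have h := Dt_ge hx t
  have h2 := G04_kk_nonneg t
  rw [sq_abs]
  nlinarith [sq_nonneg (kk t)]

/-- the bound of the first integrand -/
private theorem G04_bound_a {x : ℝ} (hx : -(3 / 2) ≤ x) (h0 : x ≠ 0) (t : ℝ) :
    |x| * (kk t / (Dt x t * Real.sqrt (Dt x t))) ≤ (1 + t ^ 2)⁻¹ := by
  have hpos := Dt_pos hx h0 t
  have hs := Real.sqrt_pos.2 hpos
  have hk := G04_kk_nonneg t
  have h1 := G04_abs_le hx t
  have h2 := Dt_ge hx t
  have h3 := kk_ge t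
  have e : |x| * (kk t / (Dt x t * Real.sqrt (Dt x t)))
      = |x| / Real.sqrt (Dt x t) * (kk t / Dt x t) := by
    field_simp
  rw [e]
  have h4 : |x| / Real.sqrt (Dt x t) ≤ 1 := (div_le_one hs).2 h1
  have h5 : kk t / Dt x t ≤ (1 + t ^ 2)⁻¹ := by
    rw [div_le_iff₀ hpos, inv_mul_eq_div, le_div_iff₀ (by positivity)]
    nlinarith [sq_nonneg x]
  calc |x| / Real.sqrt (Dt x t) * (kk t / Dt x t) ≤ 1 * (kk t / Dt x t) := by
        refine mul_le_mul_of_nonneg_right h4 ?_
        positivity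
    _ ≤ _ := by rw [one_mul]; exact h5

private theorem G04_int_a {x : ℝ} (hx : -(3 / 2) ≤ x) (h0 : x ≠ 0) :
    IntegrableOn (fun t => kk t / (Dt x t * Real.sqrt (Dt x t))) (Ioi (0 : ℝ)) := by
  have hb : IntegrableOn (fun t : ℝ => |x|⁻¹ * (1 + t ^ 2)⁻¹) (Ioi (0 : ℝ)) :=
    (integrable_inv_one_add_sq.const_mul _).integrableOn
  refine hb.mono' (G04_kk_meas.div (G04_den_meas x)).aestronglyMeasurable ?_
  refine Eventually.of_forall fun t => ?_
  have hpos := Dt_pos hx h0 t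
  have hs := Real.sqrt_pos.2 hpos
  have hk := G04_kk_nonneg t
  rw [Real.norm_of_nonneg (by positivity), ← div_eq_inv_mul, le_div_iff₀ (abs_pos.2 h0), mul_comm]
  exact G04_bound_a hx h0 t

private theorem G04_int_b {x : ℝ} (hx : -(3 / 2) ≤ x) (h0 : x ≠ 0) :
    IntegrableOn (fun t => 1 / (Dt x t * Real.sqrt (Dt x t))) (Ioi (0 : ℝ)) := by
  have hc : 0 < min 1 (x ^ 2) := lt_min one_pos (by positivity)
  have hb : IntegrableOn (fun t : ℝ => (min 1 (x ^ 2) * |x|)⁻¹ * (1 + t ^ 2)⁻¹) (Ioi (0 : ℝ)) :=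
    (integrable_inv_one_add_sq.const_mul _).integrableOn
  refine hb.mono' ((measurable_const).div (G04_den_meas x)).aestronglyMeasurable ?_
  refine Eventually.of_forall fun t => ?_
  have hpos := Dt_pos hx h0 t
  have hs := Real.sqrt_pos.2 hpos
  have hxp := abs_pos.2 h0
  rw [Real.norm_of_nonneg (by positivity), ← mul_inv, one_div]
  refine inv_anti₀ (by positivity) ?_
  have h1 : min 1 (x ^ 2) * (1 + t ^ 2) ≤ Dt x t := by
    have h2 := Dt_ge' hx t
    have h3 : min 1 (x ^ 2) ≤ 1 := min_le_left _ _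
    have h4 : min 1 (x ^ 2) ≤ x ^ 2 := min_le_right _ _
    have h5 := mul_le_mul_of_nonneg_right h3 (sq_nonneg t)
    nlinarith [sq_nonneg (t ^ 2)]
  calc min 1 (x ^ 2) * |x| * (1 + t ^ 2) = min 1 (x ^ 2) * (1 + t ^ 2) * |x| := by ring
    _ ≤ Dt x t * Real.sqrt (Dt x t) :=
      mul_le_mul h1 (G04_abs_le hx t) (abs_nonneg x) hpos.le

/-- dominated by `1/(t²+1)` as `|x| ≤ √D`, `k/D ≤ 1/(k+1)` -/
theorem lim_a : Tendsto (fun x : ℝ => x * ∫ t in Ioi (0 : ℝ), kk t / (Dt x t * Real.sqrt (Dt x t)))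
    (𝓝[≠] 0) (𝓝 0) := by
  have h : Tendsto (fun x : ℝ => ∫ t in Ioi (0 : ℝ), x * (kk t / (Dt x t * Real.sqrt (Dt x t))))
      (𝓝[≠] 0) (𝓝 (∫ t in Ioi (0 : ℝ), (0 : ℝ))) := by
    refine tendsto_integral_filter_of_dominated_convergence (fun t => (1 + t ^ 2)⁻¹) ?_ ?_
      integrable_inv_one_add_sq.integrableOn ?_
    · exact Eventually.of_forall fun x =>
        ((G04_kk_meas.div (G04_den_meas x)).const_mul x).aestronglyMeasurable
    · filter_upwards [G04_ev] with x hx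
      refine Eventually.of_forall fun t => ?_
      have hpos := Dt_pos hx.1 hx.2 t
      have hk := G04_kk_nonneg t
      have hs := Real.sqrt_pos.2 hpos
      rw [norm_mul, Real.norm_eq_abs, Real.norm_of_nonneg (by positivity)]
      exact G04_bound_a hx.1 hx.2 t
    · refine (ae_restrict_iff' measurableSet_Ioi).2 (Eventually.of_forall fun t ht => ?_)
      have ht' : (0 : ℝ) < t := ht
      have hk : 0 < kk t := lt_of_lt_of_le (by positivity) (kk_ge t)
      have hD0 : 0 < Dt 0 t := by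
        unfold Dt
        positivity
      have hc : ContinuousAt (fun x : ℝ => x * (kk t / (Dt x t * Real.sqrt (Dt x t)))) 0 := by
        have hDc : ContinuousAt (fun x : ℝ => Dt x t) 0 := by
          unfold Dt
          fun_prop
        refine continuousAt_id.mul (continuousAt_const.div (hDc.mul hDc.sqrt) ?_)
        exact (mul_pos hD0 (Real.sqrt_pos.2 hD0)).ne'
      have h1 := hc.tendsto
      simp only [zero_mul] at h1
      exact h1.mono_left nhdsWithin_le_nhds
  rw [integral_zero] at h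
  refine h.congr fun x => ?_
  rw [integral_const_mul]

private theorem G04_alg {r s : ℝ} (hr : 0 < r) (h : r ^ 2 = 4 * s ^ 2 + 1) :
    (1 * r - s * (8 * s / (2 * r))) / r ^ 2 = 1 / ((4 * s ^ 2 + 1) * r) := by
  have e1 : 1 * r - s * (8 * s / (2 * r)) = (r ^ 2 - 4 * s ^ 2) / r := by
    field_simp
    ring
  have e2 : r ^ 2 - 4 * s ^ 2 = 1 := by linarith
  rw [e1, e2, ← h]
  field_simp

/-- the limit integral -/
private theorem G04_half : ∫ s in Ioi (0 : ℝ), 1 / ((4 * s ^ 2 + 1) * Real.sqrt (4 * s ^ 2 + 1))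
    = 1 / 2 := by
  have hd : ∀ s : ℝ, HasDerivAt (fun s : ℝ => s / Real.sqrt (4 * s ^ 2 + 1))
      (1 / ((4 * s ^ 2 + 1) * Real.sqrt (4 * s ^ 2 + 1))) s := by
    intro s
    have hpos : (0 : ℝ) < 4 * s ^ 2 + 1 := by positivity
    have h1 : HasDerivAt (fun s : ℝ => 4 * s ^ 2 + 1) (8 * s) s := by
      have := ((hasDerivAt_pow 2 s).const_mul 4).add_const 1
      refine this.congr_deriv ?_
      simp
      ring
    have h2 := (hasDerivAt_id s).div (h1.sqrt hpos.ne') (Real.sqrt_pos.2 hpos).ne'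
    refine h2.congr_deriv ?_
    exact G04_alg (Real.sqrt_pos.2 hpos) (Real.sq_sqrt hpos.le)
  have hlim : Tendsto (fun s : ℝ => s / Real.sqrt (4 * s ^ 2 + 1)) atTop (𝓝 (1 / 2)) := by
    have h1 : Tendsto (fun s : ℝ => 1 / Real.sqrt (4 + (s ^ 2)⁻¹)) atTop (𝓝 (1 / Real.sqrt 4)) := by
      have h2 : Tendsto (fun s : ℝ => 4 + (s ^ 2)⁻¹) atTop (𝓝 (4 + 0)) :=
        tendsto_const_nhds.add (tendsto_pow_atTop two_ne_zero).inv_tendsto_atTop
      rw [add_zero] at h2
      have h3 := (Real.continuous_sqrt.tendsto 4).comp h2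
      exact tendsto_const_nhds.div h3 (by positivity)
    have h4 : Real.sqrt 4 = 2 := by
      rw [show (4 : ℝ) = 2 ^ 2 by norm_num, Real.sqrt_sq (by norm_num)]
    rw [h4] at h1
    refine h1.congr' ?_
    filter_upwards [eventually_gt_atTop 0] with s hs
    have e : 4 * s ^ 2 + 1 = s ^ 2 * (4 + (s ^ 2)⁻¹) := by
      field_simp
    rw [e, Real.sqrt_mul (by positivity), Real.sqrt_sq hs.le]
    field_simp
  have hint : IntegrableOn (fun s : ℝ => 1 / ((4 * s ^ 2 + 1) * Real.sqrt (4 * s ^ 2 + 1)))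
      (Ioi 0) := by
    refine integrableOn_Ioi_deriv_of_nonneg (hd 0).continuousAt.continuousWithinAt
      (fun s _ => hd s) (fun s _ => ?_) hlim
    positivity
  have h := integral_Ioi_of_hasDerivAt_of_tendsto (hd 0).continuousAt.continuousWithinAt
    (fun s _ => hd s) hint hlim
  rw [h]
  simp

private theorem G04_resc {x : ℝ} (h0 : x ≠ 0) :
    x ^ 2 * ∫ t in Ioi (0 : ℝ), 1 / (Dt x t * Real.sqrt (Dt x t))
      = ∫ s in Ioi (0 : ℝ), 1 / (Dt x (|x| * s) / x ^ 2 * Real.sqrt (Dt x (|x| * s) / x ^ 2)) := by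
  have hxp := abs_pos.2 h0
  have h := integral_comp_mul_left_Ioi (fun t => 1 / (Dt x t * Real.sqrt (Dt x t))) 0 hxp
  rw [mul_zero, smul_eq_mul] at h
  have e : ∀ s : ℝ, 1 / (Dt x (|x| * s) / x ^ 2 * Real.sqrt (Dt x (|x| * s) / x ^ 2))
      = (x ^ 2 * |x|) * (1 / (Dt x (|x| * s) * Real.sqrt (Dt x (|x| * s)))) := by
    intro s
    rw [Real.sqrt_div' _ (sq_nonneg x), Real.sqrt_sq_eq_abs]
    by_cases hz : Dt x (|x| * s) * Real.sqrt (Dt x (|x| * s)) = 0
    · rcases mul_eq_zero.1 hz with h1 | h1 <;> rw [h1] <;> simp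
    · obtain ⟨h1, h2⟩ := mul_ne_zero_iff.1 hz
      field_simp
  simp_rw [e]
  rw [integral_const_mul, h]
  field_simp

/-- substitution `t = |x| s`, dominated by `1/(1+s²)`, limit `∫ ds/(1+4s²)^(3/2) = 1/2` -/
theorem lim_b : Tendsto (fun x : ℝ => x ^ 2 * ∫ t in Ioi (0 : ℝ), 1 / (Dt x t * Real.sqrt (Dt x t)))
    (𝓝[≠] 0) (𝓝 (1 / 2)) := by
  rw [← G04_half]
  have h : Tendsto (fun x : ℝ => ∫ s in Ioi (0 : ℝ),
      1 / (Dt x (|x| * s) / x ^ 2 * Real.sqrt (Dt x (|x| * s) / x ^ 2)))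
      (𝓝[≠] 0) (𝓝 (∫ s in Ioi (0 : ℝ), 1 / ((4 * s ^ 2 + 1) * Real.sqrt (4 * s ^ 2 + 1)))) := by
    refine tendsto_integral_filter_of_dominated_convergence (fun t => (1 + t ^ 2)⁻¹) ?_ ?_
      integrable_inv_one_add_sq.integrableOn ?_
    · refine Eventually.of_forall fun x => ?_
      have h1 : Measurable fun s : ℝ => Dt x (|x| * s) / x ^ 2 :=
        ((G04_Dt_meas x).comp (measurable_const_mul |x|)).div_const _
      exact (measurable_const.div (h1.mul
        (Real.continuous_sqrt.measurable.comp h1))).aestronglyMeasurable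
    · filter_upwards [G04_ev] with x hx
      refine Eventually.of_forall fun s => ?_
      have hpos := Dt_pos hx.1 hx.2 (|x| * s)
      have hx2 : 0 < x ^ 2 := by
        have := hx.2
        positivity
      have hE : 1 + s ^ 2 ≤ Dt x (|x| * s) / x ^ 2 := by
        rw [le_div_iff₀ hx2]
        have h1 := Dt_ge' hx.1 (|x| * s)
        have h2 : (|x| * s) ^ 2 = x ^ 2 * s ^ 2 := by rw [mul_pow, sq_abs]
        have h3 : 0 ≤ (|x| * s) ^ 4 := by positivity
        nlinarith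
      have h1 : (1 : ℝ) ≤ Dt x (|x| * s) / x ^ 2 := by nlinarith [sq_nonneg s]
      have h2 : 1 ≤ Real.sqrt (Dt x (|x| * s) / x ^ 2) := Real.one_le_sqrt.2 h1
      rw [Real.norm_of_nonneg (by positivity), one_div]
      refine inv_anti₀ (by positivity) ?_
      nlinarith [sq_nonneg s]
    · refine (ae_restrict_iff' measurableSet_Ioi).2 (Eventually.of_forall fun s hs => ?_)
      have hs' : (0 : ℝ) < s := hs
      have hk : Tendsto (fun x : ℝ => kk (|x| * s) / x ^ 2) (𝓝[≠] 0) (𝓝 (s ^ 2)) := by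
        have hup : Tendsto (fun x : ℝ => s ^ 2 + x ^ 2 * s ^ 4 / 5) (𝓝[≠] 0) (𝓝 (s ^ 2)) := by
          have hc : Continuous fun x : ℝ => s ^ 2 + x ^ 2 * s ^ 4 / 5 := by fun_prop
          have := hc.tendsto 0
          simp only [ne_eq, OfNat.ofNat_ne_zero, not_false_eq_true, zero_pow, zero_mul, zero_div,
            add_zero] at this
          exact this.mono_left nhdsWithin_le_nhds
        refine tendsto_of_tendsto_of_tendsto_of_le_of_le' tendsto_const_nhds hup ?_ ?_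
        · filter_upwards [self_mem_nhdsWithin] with x hx
          have hx2 : 0 < x ^ 2 := by
            have : x ≠ 0 := hx
            positivity
          rw [le_div_iff₀ hx2]
          have := kk_ge (|x| * s)
          rw [mul_pow, sq_abs] at this
          linarith
        · have hsm : ∀ᶠ x : ℝ in 𝓝[≠] 0, |x| * s < 1 := by
            have hc : Continuous fun x : ℝ => |x| * s := by fun_prop
            have := hc.tendsto 0
            rw [abs_zero, zero_mul] at this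
            exact (this.mono_left nhdsWithin_le_nhds).eventually (gt_mem_nhds one_pos)
          filter_upwards [self_mem_nhdsWithin, hsm] with x hx hx1
          have hx2 : 0 < x ^ 2 := by
            have : x ≠ 0 := hx
            positivity
          rw [div_le_iff₀ hx2]
          have h1 := kk_le (mul_nonneg (abs_nonneg x) hs'.le) hx1.le
          have h2 : (|x| * s) ^ 4 = x ^ 4 * s ^ 4 := by
            rw [mul_pow, show |x| ^ 4 = (|x| ^ 2) ^ 2 by ring, sq_abs]
            ring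
          rw [mul_pow, sq_abs, h2] at h1
          nlinarith
      have hx0 : Tendsto (fun x : ℝ => x) (𝓝[≠] 0) (𝓝 0) := nhdsWithin_le_nhds
      have hE : Tendsto (fun x : ℝ => Dt x (|x| * s) / x ^ 2) (𝓝[≠] 0) (𝓝 (4 * s ^ 2 + 1)) := by
        have h1 : Tendsto (fun x : ℝ => x ^ 2 * (kk (|x| * s) / x ^ 2) ^ 2
            + (4 + 2 * x) * (kk (|x| * s) / x ^ 2) + 1) (𝓝[≠] 0)
            (𝓝 (0 ^ 2 * (s ^ 2) ^ 2 + (4 + 2 * 0) * s ^ 2 + 1)) :=
          (((hx0.pow 2).mul (hk.pow 2)).add ((tendsto_const_nhds.add (hx0.const_mul 2)).mul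
            hk)).add tendsto_const_nhds
        rw [show (0 : ℝ) ^ 2 * (s ^ 2) ^ 2 + (4 + 2 * 0) * s ^ 2 + 1 = 4 * s ^ 2 + 1 by ring] at h1
        refine h1.congr' ?_
        filter_upwards [self_mem_nhdsWithin] with x hx
        have hx' : x ≠ 0 := hx
        unfold Dt
        field_simp
      have hpos : (0 : ℝ) < 4 * s ^ 2 + 1 := by positivity
      have hsq := (Real.continuous_sqrt.tendsto (4 * s ^ 2 + 1)).comp hE
      exact tendsto_const_nhds.div (hE.mul hsq) (mul_pos hpos (Real.sqrt_pos.2 hpos)).ne'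
  refine h.congr' ?_
  filter_upwards [self_mem_nhdsWithin] with x hx
  exact (G04_resc hx).symm

theorem U0_lim0 : Tendsto U0 (𝓝[≠] 0) (𝓝 8) := by
  have hx0 : Tendsto (fun x : ℝ => x) (𝓝[≠] 0) (𝓝 0) := nhdsWithin_le_nhds
  have h : Tendsto (fun x : ℝ => 2 * (x + 1) * (8 - x)
      * (x * (∫ t in Ioi (0 : ℝ), kk t / (Dt x t * Real.sqrt (Dt x t)))
        + x ^ 2 * ∫ t in Ioi (0 : ℝ), 1 / (Dt x t * Real.sqrt (Dt x t))))
      (𝓝[≠] 0) (𝓝 (2 * (0 + 1) * (8 - 0) * (0 + 1 / 2))) :=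
    (((hx0.add_const 1).const_mul 2).mul (tendsto_const_nhds.sub hx0)).mul (lim_a.add lim_b)
  rw [show (2 : ℝ) * (0 + 1) * (8 - 0) * (0 + 1 / 2) = 8 by norm_num] at h
  refine h.congr' ?_
  filter_upwards [G04_ev] with x hx
  unfold U0 G1
  have e : (∫ t in Ioi (0 : ℝ), g1 x t)
      = -2 * (∫ t in Ioi (0 : ℝ), kk t / (Dt x t * Real.sqrt (Dt x t)))
        + (-2 * x) * ∫ t in Ioi (0 : ℝ), 1 / (Dt x t * Real.sqrt (Dt x t)) := by
    rw [← integral_const_mul, ← integral_const_mul, ← integral_add]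
    · refine integral_congr_ae (Eventually.of_forall fun t => ?_)
      have hpos := Dt_pos hx.1 hx.2 t
      have hs := Real.sqrt_pos.2 hpos
      change -2 * (kk t + x) / (Dt x t * Real.sqrt (Dt x t)) = _
      simp only [Pi.add_apply]
      field_simp
      ring
    · exact (G04_int_a hx.1 hx.2).const_mul _
    · exact (G04_int_b hx.1 hx.2).const_mul _
  rw [e]
  unfold pp
  ring

end Pool.Agent.Lib.MP_230119_an.EX
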