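import Pool.Agent.Lib.MP_230119_an.EX.G02

/-!
# The limit of `G + log |x|` at `0`
-/

set_option autoImplicit false

open Set Filter Topology MeasureTheory

namespace Pool.Agent.Lib.MP_230119_an.EX

theorem G05_model_pos {x : ℝ} (hx : x ≠ 0) (t : ℝ) : 0 < 4 * t ^ 2 + x ^ 2 := by
  have : 0 < x ^ 2 := by positivity
  positivity

theorem G05_model_cont {x : ℝ} (hx : x ≠ 0) :
    Continuous (fun t : ℝ => 2 / Real.sqrt (4 * t ^ 2 + x ^ 2)) := by
  refine continuous_const.div (by fun_prop) ?_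
  intro t
  exact (Real.sqrt_pos.2 (G05_model_pos hx t)).ne'

theorem int_model {x : ℝ} (hx : x ≠ 0) :
    ∫ t in (0 : ℝ)..1, 2 / Real.sqrt (4 * t ^ 2 + x ^ 2) = Real.log ((2 + Real.sqrt (4 + x ^ 2)) / |x|) := by
  have hpos : ∀ t : ℝ, 0 < 4 * t ^ 2 + x ^ 2 := G05_model_pos hx
  have hs : ∀ t : ℝ, 0 < Real.sqrt (4 * t ^ 2 + x ^ 2) := fun t => Real.sqrt_pos.2 (hpos t)
  have hlt : ∀ t : ℝ, 0 < 2 * t + Real.sqrt (4 * t ^ 2 + x ^ 2) := by
    intro t
    have h : |2 * t| < Real.sqrt (4 * t ^ 2 + x ^ 2) := by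
      rw [← Real.sqrt_sq_eq_abs]
      apply Real.sqrt_lt_sqrt (sq_nonneg _)
      have : 0 < x ^ 2 := by positivity
      nlinarith
    linarith [neg_abs_le (2 * t)]
  have hd : ∀ t ∈ uIcc (0:ℝ) 1, HasDerivAt
      (fun t => Real.log (2 * t + Real.sqrt (4 * t ^ 2 + x ^ 2)))
      (2 / Real.sqrt (4 * t ^ 2 + x ^ 2)) t := by
    intro t _
    have h1 : HasDerivAt (fun t : ℝ => 4 * t ^ 2 + x ^ 2) (8 * t) t := by
      have h := ((hasDerivAt_pow 2 t).const_mul 4).add_const (x ^ 2)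
      refine h.congr_deriv ?_
      simp only [Nat.cast_ofNat]
      ring
    have h2 := h1.sqrt (hpos t).ne'
    have h3 := ((hasDerivAt_id t).const_mul 2).add h2
    have h4 := h3.log (hlt t).ne'
    refine h4.congr_deriv ?_
    have hs' := (hs t).ne'
    have hl' := (hlt t).ne'
    show (2 * 1 + 8 * t / (2 * Real.sqrt (4 * t ^ 2 + x ^ 2)))
      / (2 * t + Real.sqrt (4 * t ^ 2 + x ^ 2)) = 2 / Real.sqrt (4 * t ^ 2 + x ^ 2)
    rw [div_eq_div_iff hl' hs', add_mul]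
    have e : 8 * t / (2 * Real.sqrt (4 * t ^ 2 + x ^ 2)) * Real.sqrt (4 * t ^ 2 + x ^ 2)
        = 4 * t := by
      field_simp
      ring
    rw [e]
    ring
  rw [intervalIntegral.integral_eq_sub_of_hasDerivAt hd
    ((G05_model_cont hx).intervalIntegrable 0 1)]
  have e0 : (2 * (0:ℝ) + Real.sqrt (4 * (0:ℝ) ^ 2 + x ^ 2)) = |x| := by
    rw [← Real.sqrt_sq_eq_abs]
    norm_num
  have e1 : (2 * (1:ℝ) + Real.sqrt (4 * (1:ℝ) ^ 2 + x ^ 2)) = 2 + Real.sqrt (4 + x ^ 2) := by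
    norm_num
  simp only [e0, e1]
  rw [Real.log_div (by positivity) (by positivity)]

theorem G05_Dt_cont : Continuous (fun q : ℝ × ℝ => Dt q.1 q.2) := by
  unfold Dt kk
  fun_prop

theorem G05_g0_cont {x : ℝ} (hx : -(3 / 2) ≤ x) (h0 : x ≠ 0) : Continuous (g0 x) := by
  unfold g0
  refine continuous_const.div ?_ ?_
  · exact (G05_Dt_cont.comp (Continuous.prodMk_right x)).sqrt
  · intro t
    exact (Real.sqrt_pos.2 (Dt_pos hx h0 t)).ne'

theorem G05_small : ∀ᶠ x : ℝ in 𝓝[≠] 0, x ≠ 0 ∧ |x| ≤ 1 := by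
  have h1 : ∀ᶠ x : ℝ in 𝓝[≠] 0, x ≠ 0 := eventually_mem_nhdsWithin
  have h2 : ∀ᶠ x : ℝ in 𝓝[≠] 0, |x| ≤ 1 := by
    apply mem_nhdsWithin_of_mem_nhds
    have := Metric.ball_mem_nhds (0:ℝ) one_pos
    refine Filter.mem_of_superset this ?_
    intro y hy
    simp only [Metric.mem_ball, Real.dist_eq, sub_zero] at hy
    exact hy.le
  exact h1.and h2

theorem G05_diff {x t : ℝ} (h0 : x ≠ 0) (h1 : |x| ≤ 1) (ht0 : 0 ≤ t) (ht1 : t ≤ 1) :
    |g0 x t - 2 / Real.sqrt (4 * t ^ 2 + x ^ 2)| ≤ 5 := by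
  have hx1 := (abs_le.1 h1).1
  have hx2 := (abs_le.1 h1).2
  have hD := Dt_ge' (x := x) (by linarith) t
  have hDp := Dt_pos (x := x) (by linarith) h0 t
  have hEp := G05_model_pos h0 t
  have hk1 := kk_ge t
  have hk2 := kk_le ht0 ht1
  set m := Real.sqrt (t ^ 2 + x ^ 2) with hm
  have hxp : 0 < x ^ 2 := by positivity
  have hmp : 0 < m := Real.sqrt_pos.2 (by positivity)
  have hm2 : m ^ 2 = t ^ 2 + x ^ 2 := Real.sq_sqrt (by positivity)
  have htm : t ≤ m := by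
    apply Real.le_sqrt_of_sq_le
    linarith
  have hxm : |x| ≤ m := by
    apply Real.le_sqrt_of_sq_le
    rw [sq_abs]
    nlinarith
  set a := Real.sqrt (Dt x t) with ha
  set b := Real.sqrt (4 * t ^ 2 + x ^ 2) with hb
  have hma : m ≤ a := Real.sqrt_le_sqrt (by nlinarith [sq_nonneg (t ^ 2)])
  have hmb : m ≤ b := Real.sqrt_le_sqrt (by nlinarith)
  have hap : 0 < a := lt_of_lt_of_le hmp hma
  have hbp : 0 < b := lt_of_lt_of_le hmp hmb
  have ha2 : a ^ 2 = Dt x t := Real.sq_sqrt hDp.le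
  have hb2 : b ^ 2 = 4 * t ^ 2 + x ^ 2 := Real.sq_sqrt hEp.le
  have key : |b ^ 2 - a ^ 2| ≤ 5 * m ^ 3 := by
    rw [ha2, hb2]
    have e : 4 * t ^ 2 + x ^ 2 - Dt x t
        = -(kk t ^ 2) - 2 * x * kk t - 4 * (kk t - t ^ 2) := by
      unfold Dt; ring
    rw [e]
    have t2 : 0 ≤ t ^ 2 := sq_nonneg t
    have t2' : t ^ 2 ≤ 1 := by nlinarith
    have t4 : t ^ 4 ≤ t ^ 2 := by nlinarith
    have hk3 : kk t ≤ 6 / 5 * t ^ 2 := by linarith
    have hk0 : 0 ≤ kk t := le_trans t2 hk1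
    have c1 : t ^ 4 ≤ m ^ 3 := by
      have : t ^ 3 ≤ m ^ 3 := pow_le_pow_left₀ ht0 htm 3
      have h3 : 0 ≤ t ^ 3 := by positivity
      nlinarith
    have c2 : |x| * t ^ 2 ≤ m ^ 3 := by
      have h2 : t ^ 2 ≤ m ^ 2 := pow_le_pow_left₀ ht0 htm 2
      calc |x| * t ^ 2 ≤ m * m ^ 2 := mul_le_mul hxm h2 t2 hmp.le
        _ = m ^ 3 := by ring
    have c3 : kk t ^ 2 ≤ 36 / 25 * t ^ 4 := by
      have : kk t ^ 2 ≤ (6 / 5 * t ^ 2) ^ 2 := pow_le_pow_left₀ hk0 hk3 2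
      calc kk t ^ 2 ≤ (6 / 5 * t ^ 2) ^ 2 := this
        _ = 36 / 25 * t ^ 4 := by ring
    have c4 : |x * kk t| ≤ 6 / 5 * m ^ 3 := by
      rw [abs_mul, abs_of_nonneg hk0]
      have : |x| * kk t ≤ |x| * (6 / 5 * t ^ 2) := mul_le_mul_of_nonneg_left hk3 (abs_nonneg x)
      nlinarith
    have c5 := abs_le.1 c4
    have c6 : 0 ≤ kk t ^ 2 := sq_nonneg _
    rw [abs_le]
    constructor
    · nlinarith [c5.1, c5.2]
    · nlinarith [c5.1, c5.2]
  have e : g0 x t - 2 / b = 2 * (b ^ 2 - a ^ 2) / (a * b * (a + b)) := by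
    unfold g0
    rw [← ha]
    field_simp
    ring
  rw [e, abs_div, abs_mul, abs_of_pos (show 0 < a * b * (a + b) by positivity)]
  rw [div_le_iff₀ (by positivity)]
  have h3 : m * m * (m + m) ≤ a * b * (a + b) := by
    apply mul_le_mul _ (by linarith) (by positivity) (by positivity)
    exact mul_le_mul hma hmb hmp.le hap.le
  have : |(2:ℝ)| = 2 := abs_of_pos two_pos
  rw [this]
  nlinarith

theorem G05_g0_tendsto {t : ℝ} (ht : 0 < t) :
    Tendsto (fun x : ℝ => g0 x t) (𝓝[≠] 0) (𝓝 (g0 0 t)) := by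
  have h : ContinuousAt (fun x : ℝ => g0 x t) 0 := by
    unfold g0
    refine continuousAt_const.div ?_ ?_
    · exact ((G05_Dt_cont.comp (Continuous.prodMk_left t)).sqrt).continuousAt
    · have := Dt_ge' (x := 0) (by norm_num) t
      have h1 : 0 < Dt 0 t := by
        refine lt_of_lt_of_le ?_ this
        positivity
      exact (Real.sqrt_pos.2 h1).ne'
  exact h.tendsto.mono_left nhdsWithin_le_nhds

theorem G05_model_tendsto {t : ℝ} (ht : 0 < t) :
    Tendsto (fun x : ℝ => 2 / Real.sqrt (4 * t ^ 2 + x ^ 2)) (𝓝[≠] 0)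
      (𝓝 (2 / Real.sqrt (4 * t ^ 2 + 0 ^ 2))) := by
  have h : ContinuousAt (fun x : ℝ => 2 / Real.sqrt (4 * t ^ 2 + x ^ 2)) 0 := by
    refine continuousAt_const.div ?_ ?_
    · exact Continuous.continuousAt (by fun_prop)
    · exact (Real.sqrt_pos.2 (by positivity)).ne'
  exact h.tendsto.mono_left nhdsWithin_le_nhds

theorem lim_c : ∃ l : ℝ, Tendsto (fun x : ℝ =>
    ∫ t in (0 : ℝ)..1, (g0 x t - 2 / Real.sqrt (4 * t ^ 2 + x ^ 2))) (𝓝[≠] 0) (𝓝 l) := by
  refine ⟨∫ t in (0 : ℝ)..1, (g0 0 t - 2 / Real.sqrt (4 * t ^ 2 + 0 ^ 2)), ?_⟩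
  refine intervalIntegral.tendsto_integral_filter_of_dominated_convergence (fun _ => (5 : ℝ))
    ?_ ?_ ?_ ?_
  · filter_upwards [G05_small] with x hx
    have hx1 := (abs_le.1 hx.2).1
    exact ((G05_g0_cont (by linarith) hx.1).sub (G05_model_cont hx.1)).aestronglyMeasurable
  · filter_upwards [G05_small] with x hx
    refine Filter.Eventually.of_forall ?_
    intro t ht
    rw [uIoc_of_le zero_le_one] at ht
    rw [Real.norm_eq_abs]
    exact G05_diff hx.1 hx.2 ht.1.le ht.2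
  · exact intervalIntegrable_const
  · refine Filter.Eventually.of_forall ?_
    intro t ht
    rw [uIoc_of_le zero_le_one] at ht
    exact (G05_g0_tendsto ht.1).sub (G05_model_tendsto ht.1)

theorem lim_d : ∃ l : ℝ, Tendsto (fun x : ℝ => ∫ t in Ioi (1 : ℝ), g0 x t) (𝓝[≠] 0) (𝓝 l) := by
  refine ⟨∫ t in Ioi (1 : ℝ), g0 0 t, ?_⟩
  refine tendsto_integral_filter_of_dominated_convergence (fun t : ℝ => 2 * t ^ (-2 : ℝ))
    ?_ ?_ ?_ ?_
  · filter_upwards [G05_small] with x hx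
    have hx1 := (abs_le.1 hx.2).1
    exact (G05_g0_cont (by linarith) hx.1).aestronglyMeasurable
  · filter_upwards [G05_small] with x hx
    have hx1 := (abs_le.1 hx.2).1
    refine (ae_restrict_iff' measurableSet_Ioi).2 (Filter.Eventually.of_forall ?_)
    intro t ht
    have ht1 : (1:ℝ) < t := ht
    have ht0 : (0:ℝ) < t := by linarith
    have hDp := Dt_pos (x := x) (by linarith) hx.1 t
    have hs := Real.sqrt_pos.2 hDp
    have h2 : t ^ 2 ≤ Real.sqrt (Dt x t) := by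
      apply Real.le_sqrt_of_sq_le
      have := Dt_ge' (x := x) (by linarith) t
      nlinarith [sq_nonneg t, sq_nonneg x]
    unfold g0
    rw [Real.norm_eq_abs, abs_of_pos (by positivity)]
    have e : t ^ (-2 : ℝ) = 1 / t ^ 2 := by
      rw [Real.rpow_neg ht0.le, one_div]
      congr 1
      exact_mod_cast Real.rpow_natCast t 2
    rw [e, mul_one_div]
    exact div_le_div_of_nonneg_left (by norm_num) (by positivity) h2
  · exact (integrableOn_Ioi_rpow_of_lt (by norm_num) one_pos).const_mul 2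
  · refine (ae_restrict_iff' measurableSet_Ioi).2 (Filter.Eventually.of_forall ?_)
    intro t ht
    have ht1 : (1:ℝ) < t := ht
    exact G05_g0_tendsto (by linarith)

theorem G0_limL : ∃ L : ℝ, Tendsto (fun x => G0 x + Real.log |x|) (𝓝[≠] 0) (𝓝 L) := by
  obtain ⟨l1, h1⟩ := lim_c
  obtain ⟨l2, h2⟩ := lim_d
  have h3 : Tendsto (fun x : ℝ => Real.log (2 + Real.sqrt (4 + x ^ 2))) (𝓝[≠] 0)
      (𝓝 (Real.log (2 + Real.sqrt (4 + 0 ^ 2)))) := by
    have h : ContinuousAt (fun x : ℝ => Real.log (2 + Real.sqrt (4 + x ^ 2))) 0 := by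
      refine ContinuousAt.log ?_ ?_
      · exact Continuous.continuousAt (by fun_prop)
      · positivity
    exact h.tendsto.mono_left nhdsWithin_le_nhds
  refine ⟨l1 + Real.log (2 + Real.sqrt (4 + 0 ^ 2)) + l2, ?_⟩
  refine ((h1.add h3).add h2).congr' ?_
  filter_upwards [G05_small] with x hx
  have hx1 := (abs_le.1 hx.2).1
  have hc := G05_g0_cont (x := x) (by linarith) hx.1
  have hi := g0_int (x := x) (by linarith) hx.1
  have hsplit : G0 x = (∫ t in (0 : ℝ)..1, g0 x t) + ∫ t in Ioi (1 : ℝ), g0 x t := by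
    unfold G0
    rw [intervalIntegral.integral_of_le zero_le_one]
    rw [← setIntegral_union (Ioc_disjoint_Ioi le_rfl) measurableSet_Ioi
      (hi.mono_set Ioc_subset_Ioi_self) (hi.mono_set (Ioi_subset_Ioi zero_le_one)),
      Ioc_union_Ioi_eq_Ioi zero_le_one]
  have hsub : (∫ t in (0 : ℝ)..1, (g0 x t - 2 / Real.sqrt (4 * t ^ 2 + x ^ 2)))
      = (∫ t in (0 : ℝ)..1, g0 x t)
        - Real.log ((2 + Real.sqrt (4 + x ^ 2)) / |x|) := by
    rw [intervalIntegral.integral_sub (hc.intervalIntegrable 0 1)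
      ((G05_model_cont hx.1).intervalIntegrable 0 1), int_model hx.1]
  have hxa : |x| ≠ 0 := abs_ne_zero.2 hx.1
  have hl : Real.log ((2 + Real.sqrt (4 + x ^ 2)) / |x|)
      = Real.log (2 + Real.sqrt (4 + x ^ 2)) - Real.log |x| :=
    Real.log_div (by positivity) hxa
  rw [hsub, hsplit, hl]
  ring

end Pool.Agent.Lib.MP_230119_an.EX
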