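import Pool.Agent.Lib.MP_230119_an.EX.G03
import Pool.Agent.Lib.MP_230119_an.EX.G04
import Pool.Agent.Lib.MP_230119_an.EX.G05

/-!
# Existence of the pair `(G, u)`
-/

set_option autoImplicit false

open Set Filter Topology MeasureTheory

namespace Pool.Agent.Lib.MP_230119_an.EX

private theorem G06_pp_ne {x : ℝ} (h1 : -1 < x) (h8 : x < 8) (h0 : x ≠ 0) : pp x ≠ 0 := by
  unfold pp
  have h2 : x + 1 ≠ 0 := by linarith
  have h3 : x - 8 ≠ 0 := by linarith
  exact mul_ne_zero (mul_ne_zero h0 h2) h3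

private theorem G06_pp_cont : Continuous pp := by
  unfold pp
  fun_prop

private theorem G06_G0_pos {x : ℝ} (hx : -(3 / 2) ≤ x) (h0 : x ≠ 0) : 0 < G0 x := by
  unfold G0
  have hpos : ∀ t : ℝ, 0 < g0 x t := by
    intro t
    unfold g0
    exact div_pos two_pos (Real.sqrt_pos.2 (Dt_pos hx h0 t))
  rw [integral_pos_iff_support_of_nonneg_ae (Eventually.of_forall fun t => (hpos t).le)
    (g0_int hx h0)]
  have hs : Function.support (g0 x) = univ := by
    ext t
    simp [(hpos t).ne']
  rw [hs]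
  simp

private theorem G06_lim {a : ℝ} (ha : -(3 / 2) < a) (h0 : a ≠ 0) (hp : pp a = 0) :
    Tendsto U0 (𝓝 a) (𝓝 0) := by
  have h1 : ContinuousAt G1 a := (G1_deriv ha h0).continuousAt
  have h2 : Tendsto (fun x => pp x * G1 x) (𝓝 a) (𝓝 (pp a * G1 a)) :=
    (G06_pp_cont.continuousAt).mul h1
  rw [hp, zero_mul] at h2
  exact h2

theorem gf_G0 : GF G0 U0 := by
  refine ⟨G0_meas, ?_, ?_, ?_, ?_, ?_, U0_lim0, ?_, ?_, G0_limL⟩
  · exact G06_pp_cont.measurable.mul G1_meas
  · intro x hx h0
    have h := G0_deriv (x := x) (by linarith [hx.1]) h0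
    have hne := G06_pp_ne hx.1 hx.2 h0
    have h2 : U0 x / pp x = G1 x := by
      unfold U0
      field_simp
    rw [h2]
    exact h
  · intro x hx h0
    have h1 := G1_deriv (x := x) (by linarith [hx.1]) h0
    have hp : HasDerivAt pp (pp1 x) x := by
      have h3 : HasDerivAt (fun y : ℝ => y * (y + 1) * (y - 8))
          ((1 * (x + 1) + x * 1) * (x - 8) + x * (x + 1) * 1) x :=
        (((hasDerivAt_id' x).mul ((hasDerivAt_id' x).add_const 1)).mul
          ((hasDerivAt_id' x).sub_const 8))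
      have h4 : (1 * (x + 1) + x * 1) * (x - 8) + x * (x + 1) * 1 = pp1 x := by
        unfold pp1
        ring
      rw [h4] at h3
      exact h3
    have h5 := hp.mul h1
    have h6 : pp1 x * G1 x + pp x * G2 x = (2 - x) * G0 x := by
      have := G_ode (x := x) (by linarith [hx.1]) h0
      linarith
    rw [h6] at h5
    exact h5
  · intro x hx h0
    exact G06_G0_pos (by linarith [hx.1]) h0
  · have hc1 : ContinuousOn G0 (Icc (-1 : ℝ) (-(1 / 2))) := by
      intro x hx
      exact (G0_deriv (x := x) (by linarith [hx.1]) (by linarith [hx.2])).continuousAt.continuousWithinAt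
    have hc2 : ContinuousOn G0 (Icc (1 : ℝ) 8) := by
      intro x hx
      exact (G0_deriv (x := x) (by linarith [hx.1]) (by linarith [hx.1])).continuousAt.continuousWithinAt
    obtain ⟨C1, hC1⟩ := isCompact_Icc.bddAbove_image hc1
    obtain ⟨C2, hC2⟩ := isCompact_Icc.bddAbove_image hc2
    refine ⟨max C1 C2, fun x hx h => ?_⟩
    rcases h with h | h
    · exact le_max_of_le_left (hC1 ⟨x, ⟨hx.1.le, h⟩, rfl⟩)
    · exact le_max_of_le_right (hC2 ⟨x, ⟨h, hx.2.le⟩, rfl⟩)
  · exact (G06_lim (a := -1) (by norm_num) (by norm_num) (by norm_num [pp])).mono_left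
      nhdsWithin_le_nhds
  · exact (G06_lim (a := 8) (by norm_num) (by norm_num) (by norm_num [pp])).mono_left
      nhdsWithin_le_nhds

end Pool.Agent.Lib.MP_230119_an.EX
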