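import Mathlib

/-!
# Decomposition of a symmetric sum over `k + l + m = 0` into sectors
-/

set_option autoImplicit false

open Set Filter Topology MeasureTheory
open scoped ComplexConjugate

namespace Pool.Agent.Lib.MP_230119_an.EX

theorem S03_split {M : Type*} [AddCommMonoid M] (N : ℕ) (g : ℤ → M) :
    ∑ k ∈ Finset.Icc (-(N : ℤ)) N, g k
      = g 0 + ∑ n ∈ Finset.Icc 1 N, (g (n : ℤ) + g (-(n : ℤ))) := by
  induction N with
  | zero => simp
  | succ N ih =>
    have h1 : Finset.Icc (-((N + 1 : ℕ) : ℤ)) ((N + 1 : ℕ) : ℤ)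
        = insert (((N + 1 : ℕ) : ℤ)) (insert (-((N + 1 : ℕ) : ℤ)) (Finset.Icc (-(N : ℤ)) N)) := by
      ext x
      simp only [Finset.mem_Icc, Finset.mem_insert]
      omega
    rw [h1, Finset.sum_insert (by simp only [Finset.mem_insert, Finset.mem_Icc]; omega),
      Finset.sum_insert (by simp only [Finset.mem_Icc]; omega), ih,
      Finset.sum_Icc_succ_top (by omega)]
    abel

theorem S03_tri (N : ℕ) (H : ℤ → ℤ → ℝ) (hN : ∀ a b : ℕ, N < a + b → 1 ≤ a → 1 ≤ b →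
    H a b = 0) :
    ∑ a ∈ Finset.Icc 1 N, ∑ b ∈ Finset.Icc 1 N, (if b < a then H (b : ℤ) ((a : ℤ) - b) else 0)
      = ∑ a ∈ Finset.Icc 1 N, ∑ b ∈ Finset.Icc 1 N, H a b := by
  rw [Finset.sum_comm]
  refine Finset.sum_congr rfl (fun b hb => ?_)
  rw [Finset.mem_Icc] at hb
  rw [← Finset.sum_filter]
  have h1 : ∑ c ∈ Finset.Icc 1 N, H b c = ∑ c ∈ (Finset.Icc 1 N).filter (fun c => b + c ≤ N), H b c := by
    rw [Finset.sum_filter]
    refine Finset.sum_congr rfl (fun c hc => ?_)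
    rw [Finset.mem_Icc] at hc
    split_ifs with h
    · rfl
    · exact hN b c (by omega) hb.1 hc.1
  rw [h1]
  refine Finset.sum_bij' (fun a _ => a - b) (fun c _ => b + c) ?_ ?_ ?_ ?_ ?_
  · intro a ha
    simp only [Finset.mem_filter, Finset.mem_Icc] at ha ⊢
    omega
  · intro c hc
    simp only [Finset.mem_filter, Finset.mem_Icc] at hc ⊢
    omega
  · intro a ha
    simp only [Finset.mem_filter, Finset.mem_Icc] at ha
    omega
  · intro c hc
    simp only [Finset.mem_filter, Finset.mem_Icc] at hc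
    omega
  · intro a ha
    simp only [Finset.mem_filter, Finset.mem_Icc] at ha
    rw [Nat.cast_sub (by omega)]

theorem sector (N : ℕ) (F : ℤ → ℤ → ℤ → ℂ) (h12 : ∀ k l m, F k l m = F l k m)
    (h23 : ∀ k l m, F k l m = F k m l) (hc : ∀ k l m, F (-k) (-l) (-m) = conj (F k l m))
    (hN : ∀ k l m, (N : ℤ) < |k| → F k l m = 0) :
    ∑ k ∈ Finset.Icc (-(N : ℤ)) N, ∑ l ∈ Finset.Icc (-(N : ℤ)) N, ∑ m ∈ Finset.Icc (-(N : ℤ)) N,
        (if k + l + m = 0 then F k l m else 0)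
      = F 0 0 0 + ((6 * ∑ n ∈ Finset.Icc 1 N, (F 0 n (-n)).re : ℝ) : ℂ)
        + ((6 * ∑ a ∈ Finset.Icc 1 N, ∑ b ∈ Finset.Icc 1 N, (F a b (-a - b)).re : ℝ) : ℂ) := by
  obtain ⟨G, hG⟩ : ∃ G : ℤ → ℤ → ℂ, G = fun k l => F k l (-k - l) := ⟨_, rfl⟩
  have e1 : ∀ k ∈ Finset.Icc (-(N : ℤ)) N, ∀ l ∈ Finset.Icc (-(N : ℤ)) N,
      ∑ m ∈ Finset.Icc (-(N : ℤ)) N, (if k + l + m = 0 then F k l m else 0) = G k l := by
    intro k _ l _
    have h1 : ∀ m : ℤ, (if k + l + m = 0 then F k l m else 0)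
        = if m = -k - l then F k l (-k - l) else 0 := by
      intro m
      by_cases h : k + l + m = 0
      · have h' : m = -k - l := by omega
        rw [if_pos h, if_pos h', h']
      · have h' : ¬ m = -k - l := by omega
        rw [if_neg h, if_neg h']
    simp only [h1]
    rw [Finset.sum_ite_eq' (Finset.Icc (-(N : ℤ)) N) (-k - l)]
    rw [hG]
    simp only
    split_ifs with h
    · rfl
    · symm
      rw [h23, h12]
      refine hN _ _ _ ?_
      rw [Finset.mem_Icc] at h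
      rw [lt_abs]
      omega
  have e2 : ∑ k ∈ Finset.Icc (-(N : ℤ)) N, ∑ l ∈ Finset.Icc (-(N : ℤ)) N,
      ∑ m ∈ Finset.Icc (-(N : ℤ)) N, (if k + l + m = 0 then F k l m else 0)
      = ∑ k ∈ Finset.Icc (-(N : ℤ)) N, ∑ l ∈ Finset.Icc (-(N : ℤ)) N, G k l :=
    Finset.sum_congr rfl (fun k hk => Finset.sum_congr rfl (fun l hl => e1 k hk l hl))
  have hre : ∀ z : ℂ, z + conj z = ((2 * z.re : ℝ) : ℂ) := by
    intro z
    rw [Complex.add_conj]
  have hGc : ∀ k l, G (-k) (-l) = conj (G k l) := by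
    intro k l
    rw [hG]
    simp only
    rw [← hc]
    congr 1
    ring
  have hG0 : ∀ n : ℤ, G n 0 = G 0 n := by
    intro n
    rw [hG]
    simp only
    rw [h12]
    congr 1
    ring
  have hGd : ∀ n : ℤ, G n (-n) = G 0 n := by
    intro n
    rw [hG]
    simp only
    have h1 : -n - -n = 0 := by ring
    have h2 : -(0 : ℤ) - n = -n := by ring
    rw [h1, h2, h23, h12]
  rw [e2, S03_split]
  have e3 : ∑ l ∈ Finset.Icc (-(N : ℤ)) N, G 0 l
      = F 0 0 0 + ((2 * ∑ n ∈ Finset.Icc 1 N, (G 0 n).re : ℝ) : ℂ) := by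
    rw [S03_split]
    have h1 : G 0 0 = F 0 0 0 := by rw [hG]; simp
    rw [h1]
    congr 1
    rw [Finset.mul_sum]
    push_cast
    refine Finset.sum_congr rfl (fun n _ => ?_)
    have h2 : G 0 (-(n : ℤ)) = conj (G 0 n) := by
      have := hGc 0 n
      rwa [neg_zero] at this
    rw [h2, hre]
    push_cast
    ring
  have e4 : ∀ a : ℕ, (∑ l ∈ Finset.Icc (-(N : ℤ)) N, G (a : ℤ) l
      + ∑ l ∈ Finset.Icc (-(N : ℤ)) N, G (-(a : ℤ)) l)
      = ((2 * (G 0 a).re + ∑ b ∈ Finset.Icc 1 N, (2 * (G a b).re + 2 * (G a (-(b : ℤ))).re) : ℝ) : ℂ) := by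
    intro a
    rw [S03_split, S03_split]
    have h1 : G (-(a : ℤ)) 0 = conj (G 0 a) := by
      rw [← hG0, ← hGc, neg_zero]
    rw [h1, hG0]
    have h2 : ∑ n ∈ Finset.Icc 1 N, (G (a : ℤ) n + G a (-(n : ℤ)))
        + ∑ n ∈ Finset.Icc 1 N, (G (-(a : ℤ)) n + G (-(a : ℤ)) (-(n : ℤ)))
        = ∑ b ∈ Finset.Icc 1 N, ((2 * (G a b).re + 2 * (G a (-(b : ℤ))).re : ℝ) : ℂ) := by
      rw [← Finset.sum_add_distrib]
      refine Finset.sum_congr rfl (fun b _ => ?_)
      have h3 : G (-(a : ℤ)) b = conj (G a (-(b : ℤ))) := by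
        rw [← hGc, neg_neg]
      rw [h3, hGc]
      have h4 := hre (G a b)
      have h5 := hre (G a (-(b : ℤ)))
      push_cast at h4 h5 ⊢
      linear_combination h4 + h5
    have h6 := hre (G 0 a)
    push_cast at h2 h6 ⊢
    linear_combination h2 + h6
  rw [e3, Finset.sum_congr rfl (fun a _ => e4 a)]
  -- the mixed quadrant
  have e5 : ∑ a ∈ Finset.Icc 1 N, ∑ b ∈ Finset.Icc 1 N, (G a (-(b : ℤ))).re
      = ∑ n ∈ Finset.Icc 1 N, (G 0 n).re
        + 2 * ∑ a ∈ Finset.Icc 1 N, ∑ b ∈ Finset.Icc 1 N, (G a b).re := by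
    have hz : ∀ a b : ℕ, N < a + b → 1 ≤ a → 1 ≤ b → (G a b).re = 0 := by
      intro a b hab _ _
      rw [hG]
      simp only
      rw [h23, h12, hN _ _ _ (by rw [lt_abs]; omega)]
      simp
    have hs : ∀ a b : ℤ, (G b a).re = (G a b).re := by
      intro a b
      rw [hG]
      simp only
      rw [h12, show -b - a = -a - b by ring]
    have t1 := S03_tri N (fun a b => (G a b).re) hz
    have t2 : ∑ a ∈ Finset.Icc 1 N, ∑ b ∈ Finset.Icc 1 N,
        (if a < b then (G (a : ℤ) ((b : ℤ) - a)).re else 0)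
        = ∑ a ∈ Finset.Icc 1 N, ∑ b ∈ Finset.Icc 1 N, (G a b).re := by
      rw [Finset.sum_comm]
      exact t1
    have t3 : ∑ a ∈ Finset.Icc 1 N, ∑ b ∈ Finset.Icc 1 N, (if a = b then (G 0 a).re else 0)
        = ∑ n ∈ Finset.Icc 1 N, (G 0 n).re := by
      refine Finset.sum_congr rfl (fun a ha => ?_)
      rw [Finset.sum_ite_eq]
      rw [if_pos ha]
    have t4 : ∀ a b : ℕ, (G a (-(b : ℤ))).re
        = (if b < a then (G (b : ℤ) ((a : ℤ) - b)).re else 0)
          + (if a < b then (G (a : ℤ) ((b : ℤ) - a)).re else 0)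
          + (if a = b then (G 0 a).re else 0) := by
      intro a b
      rcases lt_trichotomy a b with h | h | h
      · rw [if_neg (by omega), if_pos h, if_neg (by omega), zero_add, add_zero]
        rw [hG]
        simp only
        rw [h23, show -(a : ℤ) - -(b : ℤ) = b - a by ring, show -(a : ℤ) - (b - a) = -b by ring]
      · subst h
        simp only [lt_irrefl, if_false, if_true, zero_add, hGd]
      · rw [if_pos h, if_neg (by omega), if_neg (by omega), add_zero, add_zero]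
        have h1 : G a (-(b : ℤ)) = conj (G b ((a : ℤ) - b)) := by
          rw [← hGc, hG]
          simp only
          rw [h12, h23, show -(-(b : ℤ)) - -((a : ℤ) - b) = a by ring, 
            show -(a : ℤ) - -(b : ℤ) = -((a : ℤ) - b) by ring]
        rw [h1, Complex.conj_re]
    simp only [t4]
    simp only [Finset.sum_add_distrib]
    rw [t3, t2]
    rw [t1]
    ring
  have e6 : ∑ a ∈ Finset.Icc 1 N, (2 * (G 0 a).re
      + ∑ b ∈ Finset.Icc 1 N, (2 * (G a b).re + 2 * (G a (-(b : ℤ))).re))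
      = 4 * ∑ n ∈ Finset.Icc 1 N, (G 0 n).re
        + 6 * ∑ a ∈ Finset.Icc 1 N, ∑ b ∈ Finset.Icc 1 N, (G a b).re := by
    simp only [Finset.sum_add_distrib, ← Finset.mul_sum]
    rw [e5]
    ring
  have e7 : ∑ a ∈ Finset.Icc 1 N, ((2 * (G 0 a).re
      + ∑ b ∈ Finset.Icc 1 N, (2 * (G a b).re + 2 * (G a (-(b : ℤ))).re) : ℝ) : ℂ)
      = ((4 * ∑ n ∈ Finset.Icc 1 N, (G 0 n).re
        + 6 * ∑ a ∈ Finset.Icc 1 N, ∑ b ∈ Finset.Icc 1 N, (G a b).re : ℝ) : ℂ) := by
    rw [← e6]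
    push_cast
    rfl
  rw [e7]
  have e8 : ∀ n : ℕ, G 0 n = F 0 n (-n) := by
    intro n; rw [hG]; simp
  have e9 : ∀ a b : ℕ, G a b = F a b (-a - b) := by
    intro a b; rw [hG]
  simp only [e8, e9]
  push_cast
  ring

end Pool.Agent.Lib.MP_230119_an.EX
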