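import Mathlib

/-!
# The final inequality for sequences
-/

set_option autoImplicit false

open Finset

namespace Pool.Agent.Lib.MP_230119_an.EX

/-- `∑_{b>n} b^(-3) ≤ 1/(2n²)` -/
theorem cube_tail (n N : ℕ) (hn : 1 ≤ n) : ∑ b ∈ Icc (n + 1) N, (1 : ℝ) / b ^ 3 ≤ 1 / (2 * n ^ 2) := by
  have hn0 : (1 : ℝ) ≤ n := by exact_mod_cast hn
  have key : ∀ m : ℕ, ∑ b ∈ Icc (n + 1) (n + m), (1 : ℝ) / b ^ 3 ≤
      1 / (2 * n ^ 2) - 1 / (2 * ((n + m : ℕ) : ℝ) ^ 2) := by
    intro m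
    induction m with
    | zero =>
      have h : Icc (n + 1) (n + 0) = ∅ := Finset.Icc_eq_empty (by omega)
      rw [h, sum_empty, Nat.add_zero, sub_self]
    | succ m ih =>
      rw [← Nat.add_assoc, Finset.sum_Icc_succ_top (by omega)]
      have hp : (1 : ℝ) ≤ ((n + m : ℕ) : ℝ) := by
        have : 1 ≤ n + m := by omega
        exact_mod_cast this
      set t : ℝ := ((n + m : ℕ) : ℝ) with ht
      have e : ((n + m + 1 : ℕ) : ℝ) = t + 1 := by
        rw [ht]
        push_cast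
        ring
      rw [e]
      have h1 : 1 / (t + 1) ^ 3 ≤ 1 / (2 * t ^ 2) - 1 / (2 * (t + 1) ^ 2) := by
        have ht0 : 0 < t := by linarith
        rw [div_sub_div _ _ (by positivity) (by positivity), div_le_div_iff₀ (by positivity)
          (by positivity)]
        nlinarith [pow_pos ht0 2, pow_pos ht0 3, pow_pos ht0 4]
      linarith
  rcases le_or_gt n N with h | h
  · obtain ⟨m, rfl⟩ := Nat.exists_eq_add_of_le h
    refine (key m).trans ?_
    have : 0 ≤ 1 / (2 * ((n + m : ℕ) : ℝ) ^ 2) := by positivity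
    linarith
  · rw [Finset.Icc_eq_empty (by omega), sum_empty]
    positivity

theorem S04_tail (n N : ℕ) (hn : 1 ≤ n) (c : ℝ) (hc : 0 ≤ c) :
    ∑ b ∈ Icc 1 N, (if n < b then c / (b : ℝ) ^ 3 else 0) ≤ c / (2 * n ^ 2) := by
  rw [← sum_filter]
  have h : (Icc 1 N).filter (fun b => n < b) = Icc (n + 1) N := by
    ext b
    simp only [mem_filter, mem_Icc]
    omega
  rw [h]
  have h1 := cube_tail n N hn
  calc ∑ b ∈ Icc (n + 1) N, c / (b : ℝ) ^ 3 = c * ∑ b ∈ Icc (n + 1) N, (1 : ℝ) / b ^ 3 := by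
        rw [mul_sum]
        refine sum_congr rfl fun b _ => ?_
        ring
    _ ≤ c * (1 / (2 * n ^ 2)) := mul_le_mul_of_nonneg_left h1 hc
    _ = c / (2 * n ^ 2) := by ring

theorem S04_ind (i N : ℕ) (g : ℝ) (hg : 0 ≤ g) :
    ∑ b ∈ Icc 1 N, (if b = i then g else 0) ≤ g := by
  rw [sum_ite_eq' (Icc 1 N) i]
  split_ifs
  · exact le_rfl
  · exact hg

theorem S04_sum (n N : ℕ) (hn : 1 ≤ n) (F : ℕ → ℝ) (g1 g2 g3 g4 g5 c : ℝ)
    (h1 : 0 ≤ g1) (h2 : 0 ≤ g2) (h3 : 0 ≤ g3) (h4 : 0 ≤ g4) (h5 : 0 ≤ g5) (hc : 0 ≤ c)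
    (hF : ∀ b : ℕ, 1 ≤ b → F b ≤ (if b = 1 then g1 else 0) + (if b = 2 then g2 else 0) +
      (if b = 3 then g3 else 0) + (if b = 4 then g4 else 0) + (if b = 5 then g5 else 0) +
      (if n < b then c / (b : ℝ) ^ 3 else 0)) :
    ∑ b ∈ Icc 1 N, F b ≤ g1 + g2 + g3 + g4 + g5 + c / (2 * n ^ 2) := by
  have hle := sum_le_sum (s := Icc 1 N) (fun b hb => hF b (mem_Icc.1 hb).1)
  rw [sum_add_distrib, sum_add_distrib, sum_add_distrib, sum_add_distrib, sum_add_distrib] at hle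
  have a1 := S04_ind 1 N g1 h1
  have a2 := S04_ind 2 N g2 h2
  have a3 := S04_ind 3 N g3 h3
  have a4 := S04_ind 4 N g4 h4
  have a5 := S04_ind 5 N g5 h5
  have a6 := S04_tail n N hn c hc
  linarith

/-- the weights in the arithmetic-geometric mean inequality -/
noncomputable def S04_lam (a b : ℕ) : ℝ :=
  if a = 1 then (if b = 1 then 1 else 5) else (if b = 1 then 1 / 5 else 1)

theorem S04_lam_pos (a b : ℕ) : 0 < S04_lam a b := by
  unfold S04_lam
  split_ifs <;> norm_num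

theorem S04_lam_mul (a b : ℕ) : S04_lam a b * S04_lam b a = 1 := by
  unfold S04_lam
  split_ifs <;> norm_num

theorem S04_amgm (a b : ℕ) (u v : ℝ) :
    2 * (u * v) ≤ S04_lam a b * u ^ 2 + S04_lam b a * v ^ 2 := by
  have h1 := S04_lam_pos a b
  have h2 := S04_lam_mul a b
  have h3 : 0 ≤ (S04_lam a b * u - v) ^ 2 := sq_nonneg _
  have h4 : 0 < S04_lam b a := S04_lam_pos b a
  have h5 : 0 ≤ S04_lam b a * (S04_lam a b * u - v) ^ 2 := mul_nonneg h4.le h3
  have h6 : S04_lam b a * (S04_lam a b * u - v) ^ 2 =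
      (S04_lam a b * S04_lam b a) * (S04_lam a b * u ^ 2) -
        2 * ((S04_lam a b * S04_lam b a) * (u * v)) + S04_lam b a * v ^ 2 := by ring
  rw [h6, h2] at h5
  linarith

theorem S04_row (N : ℕ) (k : ℕ → ℝ) (K : ℕ → ℕ → ℝ)
    (k1 : k 1 ≤ -284) (k2 : k 2 * 2 ^ 3 ≤ -119) (k3 : ∀ n : ℕ, 3 ≤ n → k n * n ^ 3 ≤ -145)
    (hsym : ∀ a b, K a b = K b a) (K11 : |K 1 1| ≤ 77)
    (K1 : ∀ b : ℕ, 2 ≤ b → |K 1 b| * b ^ 3 ≤ 81) (K2 : ∀ b : ℕ, 2 ≤ b → |K 2 b| * b ^ 3 ≤ 6)
    (K3 : ∀ b : ℕ, 3 ≤ b → |K 3 b| * b ^ 3 ≤ 1 / 5)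
    (K4 : ∀ b : ℕ, 4 ≤ b → |K 4 b| * b ^ 3 ≤ 1 / 100)
    (K5 : ∀ b : ℕ, 5 ≤ b → |K 5 b| * b ^ 3 ≤ 1 / 100)
    (K6 : ∀ a b : ℕ, 6 ≤ a → a ≤ b → K a b = 0) (a : ℕ) (ha : 1 ≤ a) :
    k a + ∑ b ∈ Icc 1 N, |K a b| * S04_lam a b ≤ -78 / (a : ℝ) ^ 3 := by
  have hcube : ∀ b : ℕ, 1 ≤ b → (0 : ℝ) < (b : ℝ) ^ 3 := by
    intro b hb
    have : (0 : ℝ) < b := by exact_mod_cast hb
    positivity
  have ha3 := hcube a ha
  rcases Nat.lt_or_ge a 3 with h3 | h3
  · rcases Nat.lt_or_ge a 2 with h2 | h2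
    · obtain rfl : a = 1 := by omega
      have hs := S04_sum 2 N (by norm_num) (fun b => |K 1 b| * S04_lam 1 b) 77 (405 / 8) 0 0 0 405
        (by norm_num) (by norm_num) le_rfl le_rfl le_rfl (by norm_num) ?_
      · norm_num at hs ⊢
        linarith
      · intro b hb
        show |K 1 b| * S04_lam 1 b ≤ _
        rcases Nat.lt_or_ge b 2 with hb2 | hb2
        · obtain rfl : b = 1 := by omega
          simp only [S04_lam]
          norm_num
          exact K11
        · have hb1 : b ≠ 1 := by omega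
          have h5 : |K 1 b| ≤ 81 / (b : ℝ) ^ 3 := by
            rw [le_div_iff₀ (hcube b hb)]
            exact K1 b hb2
          have h6 : S04_lam 1 b = 5 := by
            simp [S04_lam, hb1]
          rw [h6]
          rcases Nat.lt_or_ge b 3 with hb3 | hb3
          · obtain rfl : b = 2 := by omega
            norm_num at h5 ⊢
            linarith
          · have e0 : (if b = 1 then (77 : ℝ) else 0) = 0 := if_neg hb1
            have e1 : (if b = 2 then (405 / 8 : ℝ) else 0) = 0 := if_neg (by omega)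
            have e2 : (if 2 < b then (405 : ℝ) / (b : ℝ) ^ 3 else 0) = 405 / (b : ℝ) ^ 3 :=
              if_pos (by omega)
            rw [e0, e1, e2]
            simp only [ite_self]
            have e3 : (405 : ℝ) / (b : ℝ) ^ 3 = 81 / (b : ℝ) ^ 3 * 5 := by ring
            rw [e3]
            linarith
    · obtain rfl : a = 2 := by omega
      have hs := S04_sum 2 N (by norm_num) (fun b => |K 2 b| * S04_lam 2 b) (81 / 5 / 8) (6 / 8)
        0 0 0 6 (by norm_num) (by norm_num) le_rfl le_rfl le_rfl (by norm_num) ?_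
      · norm_num at hs k2 ⊢
        linarith
      · intro b hb
        show |K 2 b| * S04_lam 2 b ≤ _
        rcases Nat.lt_or_ge b 2 with hb2 | hb2
        · obtain rfl : b = 1 := by omega
          have h5 := K1 2 le_rfl
          have h6 : S04_lam 2 1 = 1 / 5 := by
            simp [S04_lam]
          rw [h6, hsym 2 1]
          norm_num at h5 ⊢
          linarith
        · have hb1 : b ≠ 1 := by omega
          have h5 : |K 2 b| ≤ 6 / (b : ℝ) ^ 3 := by
            rw [le_div_iff₀ (hcube b hb)]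
            exact K2 b hb2
          have h6 : S04_lam 2 b = 1 := by
            simp [S04_lam, hb1]
          rw [h6]
          rcases Nat.lt_or_ge b 3 with hb3 | hb3
          · obtain rfl : b = 2 := by omega
            norm_num at h5 ⊢
            linarith
          · have e0 : (if b = 1 then (81 / 5 / 8 : ℝ) else 0) = 0 := if_neg hb1
            have e1 : (if b = 2 then (6 / 8 : ℝ) else 0) = 0 := if_neg (by omega)
            have e2 : (if 2 < b then (6 : ℝ) / (b : ℝ) ^ 3 else 0) = 6 / (b : ℝ) ^ 3 :=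
              if_pos (by omega)
            rw [e0, e1, e2]
            simp only [ite_self]
            linarith
  · set A : ℝ := (a : ℝ) ^ 3 with hA
    have hk : k a ≤ -145 / A := by
      rw [le_div_iff₀ ha3]
      exact k3 a h3
    have hcc : (0 : ℝ) ≤ (if a ≤ 5 then 1 / 5 else 0 : ℝ) := by split_ifs <;> norm_num
    have hs := S04_sum a N (by omega) (fun b => |K a b| * S04_lam a b) (81 / 5 / A) (6 / A)
      (1 / 5 / A) (1 / 5 / A) (1 / 5 / A) (if a ≤ 5 then 1 / 5 else 0)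
      (by positivity) (by positivity) (by positivity) (by positivity) (by positivity) hcc ?_
    · have hlast : (if a ≤ 5 then 1 / 5 else 0 : ℝ) / (2 * (a : ℝ) ^ 2) ≤ (1 / 2) / A := by
        have ha0 : (0 : ℝ) < a := by
          have : 0 < a := by omega
          exact_mod_cast this
        split_ifs with h5
        · have h6 : (a : ℝ) ≤ 5 := by exact_mod_cast h5
          rw [hA, div_le_div_iff₀ (by positivity) (by positivity)]
          have h7 : (a : ℝ) ^ 3 = (a : ℝ) ^ 2 * a := by ring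
          rw [h7]
          nlinarith [pow_pos ha0 2]
        · rw [zero_div]
          positivity
      have hfin : -145 / A + (81 / 5 / A + 6 / A + 1 / 5 / A + 1 / 5 / A + 1 / 5 / A +
          (1 / 2) / A) ≤ -78 / A := by
        have : -78 / A - (-145 / A + (81 / 5 / A + 6 / A + 1 / 5 / A + 1 / 5 / A + 1 / 5 / A +
          (1 / 2) / A)) = (78 - 78 + (-78 + 145 - 81 / 5 - 6 - 3 / 5 - 1 / 2)) / A := by
          field_simp
          ring
        have h8 : (0 : ℝ) ≤ (78 - 78 + (-78 + 145 - 81 / 5 - 6 - 3 / 5 - 1 / 2)) / A := by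
          apply div_nonneg _ ha3.le
          norm_num
        linarith
      linarith
    · intro b hb
      show |K a b| * S04_lam a b ≤ _
      have hb3 := hcube b hb
      have hnn : 0 ≤ (if a < b then (if a ≤ 5 then 1 / 5 else 0 : ℝ) / (b : ℝ) ^ 3 else 0) := by
        split_ifs <;> positivity
      have hlam : b ≠ 1 → S04_lam a b = 1 := by
        intro hb1
        have : a ≠ 1 := by omega
        simp [S04_lam, hb1, this]
      by_cases hb1 : b = 1
      · subst hb1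
        have h6 : S04_lam a 1 = 1 / 5 := by
          have : a ≠ 1 := by omega
          simp [S04_lam, this]
        have h5 : |K 1 a| ≤ 81 / A := by
          rw [le_div_iff₀ ha3]
          exact K1 a (by omega)
        rw [h6, hsym a 1]
        have e1 : ¬ (a < 1) := by omega
        simp only [if_true, if_neg e1]
        norm_num
        have e3 : (81 : ℝ) / 5 / A = 81 / A * (1 / 5) := by ring
        rw [e3]
        linarith
      by_cases hb2 : b = 2
      · subst hb2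
        rw [hlam hb1, hsym a 2]
        have h5 : |K 2 a| ≤ 6 / A := by
          rw [le_div_iff₀ ha3]
          exact K2 a (by omega)
        have e1 : ¬ (a < 2) := by omega
        simp only [if_true, if_neg e1]
        norm_num
        exact h5
      rcases Nat.lt_or_ge a b with hab | hab
      · -- a < b
        rw [hlam hb1, if_pos hab]
        have hg : 0 ≤ (if b = 1 then 81 / 5 / A else 0) + (if b = 2 then 6 / A else 0) +
            (if b = 3 then 1 / 5 / A else 0) + (if b = 4 then 1 / 5 / A else 0) +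
            (if b = 5 then 1 / 5 / A else 0) := by
          have : 0 ≤ 81 / 5 / A := by positivity
          have : 0 ≤ 6 / A := by positivity
          have : 0 ≤ 1 / 5 / A := by positivity
          split_ifs <;> linarith
        have hmain : |K a b| ≤ (if a ≤ 5 then 1 / 5 else 0 : ℝ) / (b : ℝ) ^ 3 := by
          by_cases h6 : 6 ≤ a
          · rw [K6 a b h6 hab.le, abs_zero]
            positivity
          · rw [if_pos (by omega : a ≤ 5), le_div_iff₀ hb3]
            obtain h | h | h : a = 3 ∨ a = 4 ∨ a = 5 := by omega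
            · rw [h]
              exact K3 b (by omega)
            · rw [h]
              have := K4 b (by omega)
              linarith
            · rw [h]
              have := K5 b (by omega)
              linarith
        linarith
      · -- b ≤ a, 3 ≤ b
        rw [hlam hb1, hsym a b]
        by_cases h6 : 6 ≤ b
        · rw [K6 b a h6 hab, abs_zero, zero_mul]
          have : 0 ≤ 81 / 5 / A := by positivity
          have : 0 ≤ 6 / A := by positivity
          have : 0 ≤ 1 / 5 / A := by positivity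
          have hg : 0 ≤ (if b = 1 then 81 / 5 / A else 0) + (if b = 2 then 6 / A else 0) +
            (if b = 3 then 1 / 5 / A else 0) + (if b = 4 then 1 / 5 / A else 0) +
            (if b = 5 then 1 / 5 / A else 0) := by
            split_ifs <;> linarith
          linarith
        · obtain h | h | h : b = 3 ∨ b = 4 ∨ b = 5 := by omega
          · subst h
            have h5 : |K 3 a| ≤ 1 / 5 / A := by
              rw [le_div_iff₀ ha3]
              exact K3 a hab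
            have e1 : ¬ (a < 3) := by omega
            simp only [if_true, if_neg e1]
            norm_num at h5 ⊢
            exact h5
          · subst h
            have h5 : |K 4 a| ≤ 1 / 100 / A := by
              rw [le_div_iff₀ ha3]
              exact K4 a hab
            have h7 : 1 / 100 / A ≤ 1 / 5 / A := by
              apply div_le_div_of_nonneg_right _ ha3.le
              norm_num
            have h8 := h5.trans h7
            have e1 : ¬ (a < 4) := by omega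
            simp only [if_true, if_neg e1]
            norm_num at h8 ⊢
            exact h8
          · subst h
            have h5 : |K 5 a| ≤ 1 / 100 / A := by
              rw [le_div_iff₀ ha3]
              exact K5 a hab
            have h7 : 1 / 100 / A ≤ 1 / 5 / A := by
              apply div_le_div_of_nonneg_right _ ha3.le
              norm_num
            have h8 := h5.trans h7
            have e1 : ¬ (a < 5) := by omega
            simp only [if_true, if_neg e1]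
            norm_num at h8 ⊢
            exact h8

/-- the part with the explicit coefficients: `2|K_{1b}| x_1 x_b ≤ |K_{1b}| (5 x_1² + x_b²/5)`,
`2|K_{ab}| x_a x_b ≤ |K_{ab}| (x_a² + x_b²)` for `2 ≤ a < b`; the result per `x_n²/n³`:
`n = 1`: `-284 + 77 + 5·81/4`, `n = 2`: `-119 + 6 + 6 + 81/5`, `n ≥ 3`: `-145 + 81/5 + 6 + 1`. -/
theorem main_part (N : ℕ) (x : ℕ → ℝ) (h0 : ∀ n, 0 ≤ x n) (k : ℕ → ℝ) (K : ℕ → ℕ → ℝ)
    (k1 : k 1 ≤ -284) (k2 : k 2 * 2 ^ 3 ≤ -119) (k3 : ∀ n : ℕ, 3 ≤ n → k n * n ^ 3 ≤ -145)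
    (hsym : ∀ a b, K a b = K b a) (K11 : |K 1 1| ≤ 77)
    (K1 : ∀ b : ℕ, 2 ≤ b → |K 1 b| * b ^ 3 ≤ 81) (K2 : ∀ b : ℕ, 2 ≤ b → |K 2 b| * b ^ 3 ≤ 6)
    (K3 : ∀ b : ℕ, 3 ≤ b → |K 3 b| * b ^ 3 ≤ 1 / 5)
    (K4 : ∀ b : ℕ, 4 ≤ b → |K 4 b| * b ^ 3 ≤ 1 / 100)
    (K5 : ∀ b : ℕ, 5 ≤ b → |K 5 b| * b ^ 3 ≤ 1 / 100)
    (K6 : ∀ a b : ℕ, 6 ≤ a → a ≤ b → K a b = 0) :
    ∑ n ∈ Icc 1 N, k n * x n ^ 2 + ∑ a ∈ Icc 1 N, ∑ b ∈ Icc 1 N, |K a b| * (x a * x b)
      ≤ -78 * ∑ n ∈ Icc 1 N, x n ^ 2 / n ^ 3 := by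
  have hpair : ∑ a ∈ Icc 1 N, ∑ b ∈ Icc 1 N, |K a b| * (x a * x b) ≤
      ∑ a ∈ Icc 1 N, x a ^ 2 * ∑ b ∈ Icc 1 N, |K a b| * S04_lam a b := by
    have h1 : ∀ a ∈ Icc 1 N, ∀ b ∈ Icc 1 N, |K a b| * (x a * x b) ≤
        1 / 2 * (x a ^ 2 * (|K a b| * S04_lam a b)) +
          1 / 2 * (x b ^ 2 * (|K b a| * S04_lam b a)) := by
      intro a _ b _
      have h2 := S04_amgm a b (x a) (x b)
      have h3 := mul_le_mul_of_nonneg_left h2 (abs_nonneg (K a b))
      rw [hsym b a]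
      nlinarith [h3]
    calc ∑ a ∈ Icc 1 N, ∑ b ∈ Icc 1 N, |K a b| * (x a * x b)
        ≤ ∑ a ∈ Icc 1 N, ∑ b ∈ Icc 1 N, (1 / 2 * (x a ^ 2 * (|K a b| * S04_lam a b)) +
          1 / 2 * (x b ^ 2 * (|K b a| * S04_lam b a))) :=
          sum_le_sum fun a ha => sum_le_sum fun b hb => h1 a ha b hb
      _ = ∑ a ∈ Icc 1 N, ∑ b ∈ Icc 1 N, 1 / 2 * (x a ^ 2 * (|K a b| * S04_lam a b)) +
          ∑ a ∈ Icc 1 N, ∑ b ∈ Icc 1 N, 1 / 2 * (x b ^ 2 * (|K b a| * S04_lam b a)) := by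
          rw [← sum_add_distrib]
          refine sum_congr rfl fun a _ => ?_
          rw [← sum_add_distrib]
      _ = ∑ a ∈ Icc 1 N, ∑ b ∈ Icc 1 N, 1 / 2 * (x a ^ 2 * (|K a b| * S04_lam a b)) +
          ∑ a ∈ Icc 1 N, ∑ b ∈ Icc 1 N, 1 / 2 * (x a ^ 2 * (|K a b| * S04_lam a b)) := by
          congr 1
          exact sum_comm
      _ = ∑ a ∈ Icc 1 N, x a ^ 2 * ∑ b ∈ Icc 1 N, |K a b| * S04_lam a b := by
          rw [← sum_add_distrib]
          refine sum_congr rfl fun a _ => ?_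
          rw [← sum_add_distrib, mul_sum]
          refine sum_congr rfl fun b _ => ?_
          ring
  calc ∑ n ∈ Icc 1 N, k n * x n ^ 2 + ∑ a ∈ Icc 1 N, ∑ b ∈ Icc 1 N, |K a b| * (x a * x b)
      ≤ ∑ n ∈ Icc 1 N, k n * x n ^ 2 +
        ∑ a ∈ Icc 1 N, x a ^ 2 * ∑ b ∈ Icc 1 N, |K a b| * S04_lam a b := by linarith
    _ = ∑ a ∈ Icc 1 N, x a ^ 2 * (k a + ∑ b ∈ Icc 1 N, |K a b| * S04_lam a b) := by
        rw [← sum_add_distrib]
        refine sum_congr rfl fun a _ => ?_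
        ring
    _ ≤ ∑ a ∈ Icc 1 N, x a ^ 2 * (-78 / (a : ℝ) ^ 3) := by
        refine sum_le_sum fun a ha => mul_le_mul_of_nonneg_left ?_ (sq_nonneg _)
        exact S04_row N k K k1 k2 k3 hsym K11 K1 K2 K3 K4 K5 K6 a (mem_Icc.1 ha).1
    _ = -78 * ∑ n ∈ Icc 1 N, x n ^ 2 / n ^ 3 := by
        rw [mul_sum]
        refine sum_congr rfl fun a _ => ?_
        ring

/-- the part with the error coefficients -/
theorem error_part (N : ℕ) (x : ℕ → ℝ) (h0 : ∀ n, 0 ≤ x n) (kE : ℕ → ℝ) (KE : ℕ → ℕ → ℝ)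
    (hk : ∀ n ∈ Icc 1 N, |kE n| * n ^ 3 ≤ 61)
    (hK : ∑ a ∈ Icc 1 N, ∑ b ∈ Icc 1 N, KE a b ^ 2 * ((a : ℝ) ^ 3 * b ^ 3) ≤ (151 / 10) ^ 2) :
    ∑ n ∈ Icc 1 N, kE n * x n ^ 2 + ∑ a ∈ Icc 1 N, ∑ b ∈ Icc 1 N, |KE a b| * (x a * x b)
      ≤ (761 / 10) * ∑ n ∈ Icc 1 N, x n ^ 2 / n ^ 3 := by
  set S : ℝ := ∑ n ∈ Icc 1 N, x n ^ 2 / (n : ℝ) ^ 3 with hS
  have hS0 : 0 ≤ S := sum_nonneg fun n _ => by positivity
  have hcube : ∀ b ∈ Icc 1 N, (0 : ℝ) < (b : ℝ) ^ 3 := by
    intro b hb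
    have : (0 : ℝ) < b := by exact_mod_cast (mem_Icc.1 hb).1
    positivity
  have hfirst : ∑ n ∈ Icc 1 N, kE n * x n ^ 2 ≤ 61 * S := by
    rw [hS, mul_sum]
    refine sum_le_sum fun n hn => ?_
    have h3 := hcube n hn
    have h1 : kE n ≤ 61 / (n : ℝ) ^ 3 := by
      rw [le_div_iff₀ h3]
      have := hk n hn
      have h2 : kE n * (n : ℝ) ^ 3 ≤ |kE n| * (n : ℝ) ^ 3 :=
        mul_le_mul_of_nonneg_right (le_abs_self _) h3.le
      linarith
    calc kE n * x n ^ 2 ≤ 61 / (n : ℝ) ^ 3 * x n ^ 2 :=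
          mul_le_mul_of_nonneg_right h1 (sq_nonneg _)
      _ = 61 * (x n ^ 2 / (n : ℝ) ^ 3) := by ring
  have hsecond : ∑ a ∈ Icc 1 N, ∑ b ∈ Icc 1 N, |KE a b| * (x a * x b) ≤ 151 / 10 * S := by
    set s := Icc 1 N ×ˢ Icc 1 N with hs
    have e1 : ∑ a ∈ Icc 1 N, ∑ b ∈ Icc 1 N, |KE a b| * (x a * x b) =
        ∑ p ∈ s, (|KE p.1 p.2| * Real.sqrt ((p.1 : ℝ) ^ 3 * (p.2 : ℝ) ^ 3)) *
          (x p.1 * x p.2 / Real.sqrt ((p.1 : ℝ) ^ 3 * (p.2 : ℝ) ^ 3)) := by
      rw [hs, sum_product]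
      refine sum_congr rfl fun a ha => sum_congr rfl fun b hb => ?_
      have h1 : 0 < Real.sqrt ((a : ℝ) ^ 3 * (b : ℝ) ^ 3) :=
        Real.sqrt_pos.2 (mul_pos (hcube a ha) (hcube b hb))
      simp only
      field_simp
    have e2 : ∑ p ∈ s, (|KE p.1 p.2| * Real.sqrt ((p.1 : ℝ) ^ 3 * (p.2 : ℝ) ^ 3)) ^ 2 =
        ∑ a ∈ Icc 1 N, ∑ b ∈ Icc 1 N, KE a b ^ 2 * ((a : ℝ) ^ 3 * b ^ 3) := by
      rw [hs, sum_product]
      refine sum_congr rfl fun a ha => sum_congr rfl fun b hb => ?_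
      simp only
      rw [mul_pow, sq_abs, Real.sq_sqrt (mul_pos (hcube a ha) (hcube b hb)).le]
    have e3 : ∑ p ∈ s, (x p.1 * x p.2 / Real.sqrt ((p.1 : ℝ) ^ 3 * (p.2 : ℝ) ^ 3)) ^ 2 =
        S ^ 2 := by
      rw [hs, sum_product, sq S, hS, sum_mul_sum]
      refine sum_congr rfl fun a ha => sum_congr rfl fun b hb => ?_
      simp only
      rw [div_pow, Real.sq_sqrt (mul_pos (hcube a ha) (hcube b hb)).le]
      have h1 := (hcube a ha).ne'
      have h2 := (hcube b hb).ne'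
      field_simp
    have hcs := sum_mul_sq_le_sq_mul_sq s
      (fun p => |KE p.1 p.2| * Real.sqrt ((p.1 : ℝ) ^ 3 * (p.2 : ℝ) ^ 3))
      (fun p => x p.1 * x p.2 / Real.sqrt ((p.1 : ℝ) ^ 3 * (p.2 : ℝ) ^ 3))
    rw [e2, e3, ← e1] at hcs
    have h5 : (∑ a ∈ Icc 1 N, ∑ b ∈ Icc 1 N, |KE a b| * (x a * x b)) ^ 2 ≤
        (151 / 10 * S) ^ 2 := by
      calc _ ≤ _ := hcs
        _ ≤ (151 / 10) ^ 2 * S ^ 2 := mul_le_mul_of_nonneg_right hK (sq_nonneg _)
        _ = (151 / 10 * S) ^ 2 := by ring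
    exact le_of_sq_le_sq h5 (by positivity)
  linarith

end Pool.Agent.Lib.MP_230119_an.EX
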