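import Pool.Agent.Lib.MP_230119_an.EX.Def

/-!
# Coefficients of a nonnegative trigonometric polynomial
-/

set_option autoImplicit false

open Set Filter Topology MeasureTheory
open scoped ComplexConjugate

namespace Pool.Agent.Lib.MP_230119_an.EX

/-- orthogonality -/
theorem S06b_orth (k : ℤ) : ∫ t, Complex.exp (2 * (k : ℂ) * (t : ℂ) * Complex.I) ∂mc =
    if k = 0 then ((2 * Real.pi : ℝ) : ℂ) else 0 := by
  unfold mc
  rw [← intervalIntegral.integral_of_le (by positivity)]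
  split_ifs with hk
  · subst hk
    simp
  · have hc : (2 * (k : ℂ) * Complex.I) ≠ 0 := by
      simp [hk, Complex.I_ne_zero]
    have h1 := integral_exp_mul_complex (a := 0) (b := 2 * Real.pi) hc
    have h2 : ∀ t : ℝ, Complex.exp (2 * (k : ℂ) * Complex.I * (t : ℂ)) =
        Complex.exp (2 * (k : ℂ) * (t : ℂ) * Complex.I) := by
      intro t
      congr 1
      ring
    simp_rw [h2] at h1
    rw [h1]
    have h3 : Complex.exp (2 * (k : ℂ) * ((2 * Real.pi : ℝ) : ℂ) * Complex.I) = 1 := by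
      have h4 := Complex.exp_int_mul_two_pi_mul_I (2 * k)
      rw [← h4]
      congr 1
      push_cast
      ring
    rw [h3]
    simp

theorem S06b_cont {N : ℕ} {a : ℤ → ℂ} {f : ℝ → ℝ} (hf : IsTP N a f) : Continuous f := by
  have h1 : Continuous fun t : ℝ => ((f t : ℝ) : ℂ) := by
    have h2 : (fun t : ℝ => ((f t : ℝ) : ℂ)) = fun t : ℝ => ∑ k ∈ Finset.Icc (-(N : ℤ)) N,
        a k * Complex.exp (2 * (k : ℂ) * (t : ℂ) * Complex.I) := funext hf
    rw [h2]
    fun_prop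
  have h3 : f = fun t : ℝ => (((f t : ℝ) : ℂ)).re := by
    funext t
    simp
  rw [h3]
  exact Complex.continuous_re.comp h1

theorem S06b_int {g : ℝ → ℂ} (hg : Continuous g) : Integrable g mc := by
  unfold mc
  exact (hg.integrableOn_Icc (a := 0) (b := 2 * Real.pi)).mono_set Ioc_subset_Icc_self

/-- the coefficients as integrals -/
theorem S06b_coef {N : ℕ} {a : ℤ → ℂ} {f : ℝ → ℝ} (hf : IsTP N a f) (m : ℤ)
    (hm : m ∈ Finset.Icc (-(N : ℤ)) N) :
    ∫ t, ((f t : ℝ) : ℂ) * Complex.exp (2 * ((-m : ℤ) : ℂ) * (t : ℂ) * Complex.I) ∂mc =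
      ((2 * Real.pi : ℝ) : ℂ) * a m := by
  have h1 : ∀ t : ℝ, ((f t : ℝ) : ℂ) * Complex.exp (2 * ((-m : ℤ) : ℂ) * (t : ℂ) * Complex.I) =
      ∑ k ∈ Finset.Icc (-(N : ℤ)) N,
        a k * Complex.exp (2 * ((k - m : ℤ) : ℂ) * (t : ℂ) * Complex.I) := by
    intro t
    rw [hf t, Finset.sum_mul]
    refine Finset.sum_congr rfl fun k _ => ?_
    rw [mul_assoc, ← Complex.exp_add]
    congr 2
    push_cast
    ring
  simp_rw [h1]
  rw [integral_finsetSum _ (fun k _ => S06b_int (by fun_prop))]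
  have h2 : ∀ k ∈ Finset.Icc (-(N : ℤ)) N,
      ∫ t : ℝ, a k * Complex.exp (2 * ((k - m : ℤ) : ℂ) * (t : ℂ) * Complex.I) ∂mc =
        if k = m then ((2 * Real.pi : ℝ) : ℂ) * a m else 0 := by
    intro k _
    rw [integral_const_mul, S06b_orth]
    by_cases hk : k = m
    · subst hk
      simp
      ring
    · rw [if_neg (sub_ne_zero.mpr hk), if_neg hk, mul_zero]
  rw [Finset.sum_congr rfl h2, Finset.sum_ite_eq' (Finset.Icc (-(N : ℤ)) N) m, if_pos hm]

/-- normalised coefficients: `a 0 = 1`, `a (-k) = conj (a k)`, `|a k| ≤ 1` -/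
theorem coeffs_of_nonneg {N : ℕ} {a : ℤ → ℂ} {f : ℝ → ℝ} (hf : IsTP N a f) (h0 : ∀ t, 0 ≤ f t) :
    (∫ t, f t ∂mc = 2 * Real.pi * (a 0).re) ∧ (a 0).im = 0 ∧ 0 ≤ (a 0).re ∧
    (∀ k ∈ Finset.Icc (-(N : ℤ)) N, a (-k) = conj (a k) ∧ ‖a k‖ ≤ (a 0).re) := by
  have hpi : (0 : ℝ) < 2 * Real.pi := by positivity
  have hpi' : ((2 * Real.pi : ℝ) : ℂ) ≠ 0 := by exact_mod_cast hpi.ne'
  have hmem0 : (0 : ℤ) ∈ Finset.Icc (-(N : ℤ)) N := by
    rw [Finset.mem_Icc]
    exact ⟨neg_nonpos.mpr (Int.natCast_nonneg N), Int.natCast_nonneg N⟩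
  have c0 := S06b_coef hf 0 hmem0
  have c1 : ∫ t, ((f t : ℝ) : ℂ) ∂mc = ((2 * Real.pi : ℝ) : ℂ) * a 0 := by
    rw [← c0]
    refine integral_congr_ae (Filter.Eventually.of_forall fun t => ?_)
    simp
  have c2 : ((∫ t, f t ∂mc : ℝ) : ℂ) = ((2 * Real.pi : ℝ) : ℂ) * a 0 := by
    rw [← c1]
    exact (integral_ofReal).symm
  have hre : ∫ t, f t ∂mc = 2 * Real.pi * (a 0).re := by
    have := congrArg Complex.re c2
    rw [Complex.re_ofReal_mul, Complex.ofReal_re] at this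
    exact this
  have him : (a 0).im = 0 := by
    have := congrArg Complex.im c2
    rw [Complex.im_ofReal_mul, Complex.ofReal_im] at this
    rcases mul_eq_zero.mp this.symm with h | h
    · exact absurd h hpi.ne'
    · exact h
  have hnn : 0 ≤ (a 0).re := by
    have h1 : 0 ≤ ∫ t, f t ∂mc := integral_nonneg h0
    rw [hre] at h1
    exact nonneg_of_mul_nonneg_right h1 hpi
  refine ⟨hre, him, hnn, fun k hk => ?_⟩
  have hk' : -k ∈ Finset.Icc (-(N : ℤ)) N := by
    rw [Finset.mem_Icc] at hk ⊢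
    constructor <;> linarith [hk.1, hk.2]
  have e1 := S06b_coef hf k hk
  have e2 := S06b_coef hf (-k) hk'
  constructor
  · have e3 : ((2 * Real.pi : ℝ) : ℂ) * a (-k) = ((2 * Real.pi : ℝ) : ℂ) * conj (a k) := by
      rw [← e2]
      have e4 : ((2 * Real.pi : ℝ) : ℂ) * conj (a k) = conj (((2 * Real.pi : ℝ) : ℂ) * a k) := by
        rw [map_mul, Complex.conj_ofReal]
      rw [e4, ← e1, ← integral_conj]
      refine integral_congr_ae (Filter.Eventually.of_forall fun t => ?_)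
      simp only [map_mul, Complex.conj_ofReal, ← Complex.exp_conj, Complex.conj_I, map_intCast,
        map_ofNat]
      congr 2
      push_cast
      ring
    exact mul_left_cancel₀ hpi' e3
  · have e5 : ‖((2 * Real.pi : ℝ) : ℂ) * a k‖ ≤ ∫ t, f t ∂mc := by
      rw [← e1]
      refine le_trans (norm_integral_le_integral_norm _) (le_of_eq ?_)
      refine integral_congr_ae (Filter.Eventually.of_forall fun t => ?_)
      have e6 : ‖Complex.exp (2 * ((-k : ℤ) : ℂ) * (t : ℂ) * Complex.I)‖ = 1 := by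
        have e7 : (2 * ((-k : ℤ) : ℂ) * (t : ℂ) * Complex.I) = ((2 * ((-k : ℤ) : ℝ) * t : ℝ) : ℂ) * Complex.I := by
          push_cast
          ring
        rw [e7, Complex.norm_exp_ofReal_mul_I]
      simp only [norm_mul, e6, mul_one, Complex.norm_real, Real.norm_eq_abs]
      exact abs_of_nonneg (h0 t)
    rw [norm_mul, Complex.norm_real, Real.norm_of_nonneg hpi.le, hre] at e5
    exact le_of_mul_le_mul_left e5 hpi

end Pool.Agent.Lib.MP_230119_an.EX
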