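import Pool.Agent.Lib.MP_230119_an.EX.Def

/-!
# Integration by parts on the circle
-/

set_option autoImplicit false

open Set Filter Topology MeasureTheory

namespace Pool.Agent.Lib.MP_230119_an.EX

/-- integration by parts, with a countable exceptional set -/
theorem circle_parts {f f' : ℝ → ℝ} (hper : ∀ t, f (t + 2 * Real.pi) = f t) (hc : Continuous f)
    {s : Set ℝ} (hs : s.Countable) (hd : ∀ t, t ∉ s → HasDerivAt f (f' t) t)
    (hm : Measurable f') {B : ℝ} (hb : ∀ t, t ∉ s → |f' t| ≤ B) (n : ℤ) :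
    ∫ t, (f' t : ℂ) * Complex.exp (((-(n * t) : ℝ) : ℂ) * Complex.I) ∂mc
      = (n : ℂ) * Complex.I * ∫ t, (f t : ℂ) * Complex.exp (((-(n * t) : ℝ) : ℂ) * Complex.I) ∂mc := by
  obtain ⟨e, he⟩ : ∃ e : ℝ → ℂ, e = fun t => Complex.exp (((-(n * t) : ℝ) : ℂ) * Complex.I) :=
    ⟨_, rfl⟩
  have hec : Continuous e := by rw [he]; fun_prop
  have hed : ∀ t, HasDerivAt e (-((n : ℂ) * Complex.I) * e t) t := by
    intro t
    rw [he]
    have h1 : HasDerivAt (fun t : ℝ => ((-(n * t) : ℝ) : ℂ)) (-(n : ℂ)) t := by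
      have h0 : HasDerivAt (fun t : ℝ => -((n : ℝ) * t)) (-((n : ℝ) * 1)) t :=
        ((hasDerivAt_id t).const_mul (n : ℝ)).neg
      have h2 := h0.ofReal_comp
      have h3 : ((-((n : ℝ) * 1) : ℝ) : ℂ) = -(n : ℂ) := by push_cast; ring
      rw [h3] at h2
      exact h2
    have h2 := (h1.mul_const Complex.I).cexp
    refine h2.congr_deriv ?_
    ring
  have he1 : ∀ t, ‖e t‖ ≤ 1 := by
    intro t
    rw [he]
    simp only
    rw [Complex.norm_exp_ofReal_mul_I]
  have heper : e (2 * Real.pi) = e 0 := by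
    rw [he]
    simp only
    have h1 : (((-(n * (2 * Real.pi)) : ℝ) : ℂ) * Complex.I)
        = ((-n : ℤ) : ℂ) * (2 * Real.pi * Complex.I) := by push_cast; ring
    rw [h1, Complex.exp_int_mul_two_pi_mul_I]
    simp
  have hfc : Continuous fun t => (f t : ℂ) := Complex.continuous_ofReal.comp hc
  have hmc : mc = volume.restrict (Ioc 0 (2 * Real.pi)) := rfl
  have hpi : (0 : ℝ) ≤ 2 * Real.pi := by positivity
  -- integrability
  have hI2 : IntervalIntegrable (fun t => (f t : ℂ) * e t) volume 0 (2 * Real.pi) :=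
    (hfc.mul hec).intervalIntegrable _ _
  have hI1 : IntervalIntegrable (fun t => (f' t : ℂ) * e t) volume 0 (2 * Real.pi) := by
    rw [intervalIntegrable_iff_integrableOn_Ioc_of_le hpi]
    refine Measure.integrableOn_of_bounded (M := B) measure_Ioc_lt_top.ne ?_ ?_
    · exact ((Complex.measurable_ofReal.comp hm).mul hec.measurable).aestronglyMeasurable
    · have h1 : ∀ᵐ t ∂volume, t ∉ s := by
        rw [ae_iff]
        simpa using hs.measure_zero volume
      refine ae_restrict_of_ae ?_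
      filter_upwards [h1] with t ht
      rw [norm_mul, Complex.norm_real, Real.norm_eq_abs]
      calc |f' t| * ‖e t‖ ≤ |f' t| * 1 := mul_le_mul_of_nonneg_left (he1 t) (abs_nonneg _)
        _ ≤ B := by rw [mul_one]; exact hb t ht
  have hF := MeasureTheory.integral_eq_of_hasDerivAt_off_countable_of_le
    (fun t => (f t : ℂ) * e t) (fun t => (f' t : ℂ) * e t + (f t : ℂ) * (-((n : ℂ) * Complex.I) * e t))
    hpi hs (hfc.mul hec).continuousOn
    (fun t ht => ((hd t ht.2).ofReal_comp).mul (hed t))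
    (hI1.add (by
      have : (fun t => (f t : ℂ) * (-((n : ℂ) * Complex.I) * e t))
          = fun t => (-((n : ℂ) * Complex.I)) * ((f t : ℂ) * e t) := by ext t; ring
      rw [this]
      exact hI2.const_mul _))
  have h0 : f (2 * Real.pi) = f 0 := by have := hper 0; rwa [zero_add] at this
  rw [h0, heper, sub_self] at hF
  have h3 : ∫ t in (0 : ℝ)..(2 * Real.pi),
      ((f' t : ℂ) * e t + (f t : ℂ) * (-((n : ℂ) * Complex.I) * e t))
      = (∫ t in (0 : ℝ)..(2 * Real.pi), (f' t : ℂ) * e t)
        + (-((n : ℂ) * Complex.I)) * ∫ t in (0 : ℝ)..(2 * Real.pi), (f t : ℂ) * e t := by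
    rw [← intervalIntegral.integral_const_mul, ← intervalIntegral.integral_add hI1
      (hI2.const_mul _)]
    refine intervalIntegral.integral_congr (fun t _ => ?_)
    ring
  rw [h3] at hF
  rw [intervalIntegral.integral_of_le hpi, intervalIntegral.integral_of_le hpi, ← hmc] at hF
  have h4 : ∀ t, Complex.exp (((-(n * t) : ℝ) : ℂ) * Complex.I) = e t := by
    intro t; rw [he]
  simp only [h4]
  linear_combination hF

end Pool.Agent.Lib.MP_230119_an.EX
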