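import Pool.Agent.Lib.MP_230119_an.EX.Def

/-!
# Minkowski's inequality for a sum of seven products
-/

set_option autoImplicit false

open Set Filter Topology MeasureTheory

namespace Pool.Agent.Lib.MP_230119_an.EX

theorem T06_finite : IsFiniteMeasure mc3 := by
  unfold mc3
  infer_instance

theorem T06_int {f : ℝ × ℝ × ℝ → ℝ} (hf : Continuous f) {B : ℝ} (hB : ∀ z, |f z| ≤ B) :
    Integrable f mc3 := by
  have := T06_finite
  exact (integrable_const B).mono' hf.aestronglyMeasurable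
    (Eventually.of_forall fun z => by rw [Real.norm_eq_abs]; exact hB z)

theorem T06_cs {f g : ℝ × ℝ × ℝ → ℝ} (hf : Continuous f) (hg : Continuous g) {B B' : ℝ}
    (hB : ∀ z, |f z| ≤ B) (hB' : ∀ z, |g z| ≤ B') {a b : ℝ} (ha : 0 ≤ a) (hb : 0 ≤ b)
    {V : ℝ} (hV : 0 ≤ V) (h1 : ∫ z, (f z) ^ 2 ∂mc3 ≤ a ^ 2 * V)
    (h2 : ∫ z, (g z) ^ 2 ∂mc3 ≤ b ^ 2 * V) :
    ∫ z, |f z| * |g z| ∂mc3 ≤ a * b * V := by
  have i1 : Integrable (fun z => (f z) ^ 2) mc3 := by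
    refine T06_int (hf.pow 2) (B := B ^ 2) fun z => ?_
    rw [abs_pow]
    exact pow_le_pow_left₀ (abs_nonneg _) (hB z) 2
  have i2 : Integrable (fun z => (g z) ^ 2) mc3 := by
    refine T06_int (hg.pow 2) (B := B' ^ 2) fun z => ?_
    rw [abs_pow]
    exact pow_le_pow_left₀ (abs_nonneg _) (hB' z) 2
  have i3 : Integrable (fun z => |f z| * |g z|) mc3 := by
    refine T06_int (hf.abs.mul hg.abs) (B := B * B') fun z => ?_
    rw [abs_mul, abs_abs, abs_abs]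
    exact mul_le_mul (hB z) (hB' z) (abs_nonneg _) ((abs_nonneg _).trans (hB z))
  obtain ⟨A, hA⟩ : ∃ A, A = ∫ z, (f z) ^ 2 ∂mc3 := ⟨_, rfl⟩
  obtain ⟨D, hD⟩ : ∃ D, D = ∫ z, (g z) ^ 2 ∂mc3 := ⟨_, rfl⟩
  obtain ⟨C, hC⟩ : ∃ C, C = ∫ z, |f z| * |g z| ∂mc3 := ⟨_, rfl⟩
  have hq : ∀ t : ℝ, 0 ≤ A * (t * t) + (-2 * C) * t + D := by
    intro t
    have h3 : 0 ≤ ∫ z, (t * |f z| - |g z|) ^ 2 ∂mc3 := integral_nonneg fun z => sq_nonneg _
    have h4 : (fun z => (t * |f z| - |g z|) ^ 2) =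
        fun z => t ^ 2 * (f z) ^ 2 - (2 * t) * (|f z| * |g z|) + (g z) ^ 2 := by
      funext z
      have e1 := sq_abs (f z)
      have e2 := sq_abs (g z)
      linear_combination t ^ 2 * e1 + e2
    have i4 : Integrable (fun z => t ^ 2 * (f z) ^ 2 - (2 * t) * (|f z| * |g z|)) mc3 :=
      (i1.const_mul _).sub (i3.const_mul _)
    rw [h4, integral_add i4 i2, integral_sub (i1.const_mul _) (i3.const_mul _), integral_const_mul, integral_const_mul,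
      ← hA, ← hC, ← hD] at h3
    linarith
  have hdis := discrim_le_zero hq
  rw [discrim] at hdis
  have hC0 : 0 ≤ C := by
    rw [hC]
    exact integral_nonneg fun z => mul_nonneg (abs_nonneg _) (abs_nonneg _)
  have hA0 : 0 ≤ A := by
    rw [hA]
    exact integral_nonneg fun z => sq_nonneg _
  have hD0 : 0 ≤ D := by
    rw [hD]
    exact integral_nonneg fun z => sq_nonneg _
  rw [← hA] at h1
  rw [← hD] at h2
  rw [← hC]
  have h5 : A * D ≤ (a ^ 2 * V) * (b ^ 2 * V) := mul_le_mul h1 h2 hD0 (by positivity)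
  have h6 : C ^ 2 ≤ (a * b * V) ^ 2 := by nlinarith
  exact le_of_sq_le_sq h6 (by positivity)

/-- `|Φ| ≤ ∑ S_i |g_i|` almost everywhere, `∫ g_i² = n_i² (2π)³`, then `∫ Φ² ≤ (∑ S_i n_i)² (2π)³` -/
theorem l2_sum {ι : Type*} (s : Finset ι) {Φ : ℝ × ℝ × ℝ → ℝ} {g : ι → ℝ × ℝ × ℝ → ℝ}
    {S n : ι → ℝ} (hΦ : Measurable Φ) (hg : ∀ i ∈ s, Continuous (g i)) (hS : ∀ i ∈ s, 0 ≤ S i)
    (hn : ∀ i ∈ s, 0 ≤ n i) (hgb : ∀ i ∈ s, ∃ B : ℝ, ∀ z, |g i z| ≤ B)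
    (hint : ∀ i ∈ s, ∫ z, (g i z) ^ 2 ∂mc3 ≤ n i ^ 2 * (2 * Real.pi) ^ 3)
    (hb : ∀ᵐ z ∂mc3, |Φ z| ≤ ∑ i ∈ s, S i * |g i z|) :
    ∫ z, (Φ z) ^ 2 ∂mc3 ≤ (∑ i ∈ s, S i * n i) ^ 2 * (2 * Real.pi) ^ 3 := by
  have hV : (0 : ℝ) ≤ (2 * Real.pi) ^ 3 := by positivity
  have hij : ∀ i ∈ s, ∀ j ∈ s, Integrable (fun z => |g i z| * |g j z|) mc3 := by
    intro i hi j hj
    obtain ⟨B, hB⟩ := hgb i hi
    obtain ⟨B', hB'⟩ := hgb j hj
    refine T06_int ((hg i hi).abs.mul (hg j hj).abs) (B := B * B') fun z => ?_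
    rw [abs_mul, abs_abs, abs_abs]
    exact mul_le_mul (hB z) (hB' z) (abs_nonneg _) ((abs_nonneg _).trans (hB z))
  have hcs : ∀ i ∈ s, ∀ j ∈ s, ∫ z, |g i z| * |g j z| ∂mc3 ≤ n i * n j * (2 * Real.pi) ^ 3 := by
    intro i hi j hj
    obtain ⟨B, hB⟩ := hgb i hi
    obtain ⟨B', hB'⟩ := hgb j hj
    exact T06_cs (hg i hi) (hg j hj) hB hB' (hn i hi) (hn j hj) hV (hint i hi) (hint j hj)
  have hexp : ∀ z, (∑ i ∈ s, S i * |g i z|) ^ 2 =
      ∑ i ∈ s, ∑ j ∈ s, (S i * S j) * (|g i z| * |g j z|) := by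
    intro z
    rw [pow_two, Finset.sum_mul_sum]
    apply Finset.sum_congr rfl
    intro i _
    apply Finset.sum_congr rfl
    intro j _
    ring
  have hI : Integrable (fun z => (∑ i ∈ s, S i * |g i z|) ^ 2) mc3 := by
    simp only [hexp]
    exact integrable_finsetSum _ fun i hi => integrable_finsetSum _ fun j hj =>
      (hij i hi j hj).const_mul _
  have h1 : ∫ z, (Φ z) ^ 2 ∂mc3 ≤ ∫ z, (∑ i ∈ s, S i * |g i z|) ^ 2 ∂mc3 := by
    apply integral_mono_of_nonneg (Eventually.of_forall fun z => sq_nonneg _) hI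
    filter_upwards [hb] with z hz
    rw [← sq_abs]
    exact pow_le_pow_left₀ (abs_nonneg _) hz 2
  refine h1.trans ?_
  simp only [hexp]
  rw [integral_finsetSum _ fun i hi => integrable_finsetSum _ fun j hj =>
      (hij i hi j hj).const_mul _]
  rw [pow_two, Finset.sum_mul_sum, Finset.sum_mul]
  apply Finset.sum_le_sum
  intro i hi
  rw [integral_finsetSum _ fun j hj => (hij i hi j hj).const_mul _, Finset.sum_mul]
  apply Finset.sum_le_sum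
  intro j hj
  rw [integral_const_mul]
  calc S i * S j * ∫ z, |g i z| * |g j z| ∂mc3 ≤
      S i * S j * (n i * n j * (2 * Real.pi) ^ 3) :=
        mul_le_mul_of_nonneg_left (hcs i hi j hj) (mul_nonneg (hS i hi) (hS j hj))
    _ = _ := by ring

end Pool.Agent.Lib.MP_230119_an.EX
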