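import Pool.Agent.Lib.MP_230119_an.Mg.G004
import Pool.Agent.Lib.MP_230119_an.EX.S03
import Pool.Agent.Lib.MP_230119_an.EX.S04
import Pool.Agent.Lib.MP_230119_an.Mg.G012
import Pool.Agent.Lib.MP_230119_an.EX.S06b
import Pool.Agent.Lib.MP_230119_an.Mg.G002

/-!
# The main inequality
-/

set_option autoImplicit false

open Set Filter Topology MeasureTheory
open scoped ComplexConjugate

namespace Pool.Agent.Lib.MP_230119_an.EX

theorem S06_EE_int {F F1 F2 F3 H H1 H2 H3 : ℝ → ℝ} {S0 S1 S2 S3 T0 T1 T2 T3 : ℝ}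
    (hF : C3b F F1 F2 F3 S0 S1 S2 S3) (hH : C3b H H1 H2 H3 T0 T1 T2 T3) :
    Integrable (fun z : ℝ × ℝ × ℝ => EE F H z.1 z.2.1 z.2.2) mc3 := by
  have mr : Measurable (fun z : ℝ × ℝ × ℝ => rho z.1 z.2.1 z.2.2) := by
    unfold rho; fun_prop
  have mx : Measurable (fun z : ℝ × ℝ × ℝ => chi z.1 z.2.1 z.2.2) := by
    unfold chi; fun_prop
  have hm : Measurable (fun z : ℝ × ℝ × ℝ => EE F H z.1 z.2.1 z.2.2) := by
    unfold EE
    exact (hF.m0.comp mr).add (mx.mul (hH.m0.comp mr))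
  refine Integrable.of_bound hm.aestronglyMeasurable (S0 + 3 * T0) ?_
  filter_upwards [rho_mem_ae] with z hz
  rw [Real.norm_eq_abs]
  have h1 := hF.b0 _ hz.1
  have h2 := hH.b0 _ hz.1
  have h3 : |chi z.1 z.2.1 z.2.2| ≤ 3 := by
    unfold chi
    have h1 := Real.abs_cos_le_one (2 * z.1 - z.2.1 - z.2.2)
    have h2 := Real.abs_cos_le_one (2 * z.2.1 - z.2.2 - z.1)
    have h3 := Real.abs_cos_le_one (2 * z.2.2 - z.1 - z.2.1)
    refine (abs_add_le _ _).trans ?_
    have h4 := abs_add_le (Real.cos (2 * z.1 - z.2.1 - z.2.2)) (Real.cos (2 * z.2.1 - z.2.2 - z.1))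
    linarith
  unfold EE
  refine (abs_add_le _ _).trans (add_le_add h1 ?_)
  rw [abs_mul]
  exact mul_le_mul h3 h2 (abs_nonneg _) (by norm_num)

/-- the sum of the two parts is nonpositive -/
theorem S06_core (N : ℕ) (A : ℝ) (hA : 0 ≤ A) (x : ℕ → ℝ) (h0 : ∀ n, 0 ≤ x n)
    (hxA : ∀ n, x n ≤ A) (k kE : ℕ → ℝ) (K KE : ℕ → ℕ → ℝ) (P : ℕ → ℝ) (Q : ℕ → ℕ → ℝ)
    (hP : ∀ n ∈ Finset.Icc 1 N, P n = A * x n ^ 2 * (k n + kE n))
    (hQ : ∀ a ∈ Finset.Icc 1 N, ∀ b ∈ Finset.Icc 1 N,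
      Q a b ≤ |K a b + KE a b| * (x a * x b * x (a + b)))
    (h1 : ∑ n ∈ Finset.Icc 1 N, k n * x n ^ 2
      + ∑ a ∈ Finset.Icc 1 N, ∑ b ∈ Finset.Icc 1 N, |K a b| * (x a * x b)
      ≤ -78 * ∑ n ∈ Finset.Icc 1 N, x n ^ 2 / (n : ℝ) ^ 3)
    (h2 : ∑ n ∈ Finset.Icc 1 N, kE n * x n ^ 2
      + ∑ a ∈ Finset.Icc 1 N, ∑ b ∈ Finset.Icc 1 N, |KE a b| * (x a * x b)
      ≤ (761 / 10) * ∑ n ∈ Finset.Icc 1 N, x n ^ 2 / (n : ℝ) ^ 3) :
    ∑ n ∈ Finset.Icc 1 N, P n + ∑ a ∈ Finset.Icc 1 N, ∑ b ∈ Finset.Icc 1 N, Q a b ≤ 0 := by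
  have hS : 0 ≤ ∑ n ∈ Finset.Icc 1 N, x n ^ 2 / (n : ℝ) ^ 3 :=
    Finset.sum_nonneg fun n _ => by positivity
  have e1 : ∑ n ∈ Finset.Icc 1 N, P n = A * (∑ n ∈ Finset.Icc 1 N, k n * x n ^ 2
      + ∑ n ∈ Finset.Icc 1 N, kE n * x n ^ 2) := by
    rw [← Finset.sum_add_distrib, Finset.mul_sum]
    refine Finset.sum_congr rfl fun n hn => ?_
    rw [hP n hn]
    ring
  have e2 : ∑ a ∈ Finset.Icc 1 N, ∑ b ∈ Finset.Icc 1 N, Q a b
      ≤ A * (∑ a ∈ Finset.Icc 1 N, ∑ b ∈ Finset.Icc 1 N, |K a b| * (x a * x b)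
        + ∑ a ∈ Finset.Icc 1 N, ∑ b ∈ Finset.Icc 1 N, |KE a b| * (x a * x b)) := by
    rw [← Finset.sum_add_distrib, Finset.mul_sum]
    refine Finset.sum_le_sum fun a ha => ?_
    rw [← Finset.sum_add_distrib, Finset.mul_sum]
    refine Finset.sum_le_sum fun b hb => ?_
    have t1 := abs_add_le (K a b) (KE a b)
    have t2 : 0 ≤ x a * x b := mul_nonneg (h0 a) (h0 b)
    have t3 : x a * x b * x (a + b) ≤ x a * x b * A := mul_le_mul_of_nonneg_left (hxA _) t2
    calc Q a b ≤ |K a b + KE a b| * (x a * x b * x (a + b)) := hQ a ha b hb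
      _ ≤ |K a b + KE a b| * (x a * x b * A) := mul_le_mul_of_nonneg_left t3 (abs_nonneg _)
      _ ≤ (|K a b| + |KE a b|) * (x a * x b * A) :=
          mul_le_mul_of_nonneg_right t1 (mul_nonneg t2 hA)
      _ = A * (|K a b| * (x a * x b) + |KE a b| * (x a * x b)) := by ring
  nlinarith [mul_nonneg hA hS, mul_le_mul_of_nonneg_left h1 hA, mul_le_mul_of_nonneg_left h2 hA]

theorem S06_kx_symm (a b : ℤ) : kx a b = kx b a := by
  have h1 := cf_KX a b (-a - b)
  have h2 := cf_KX b a (-a - b)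
  rw [if_pos (by ring)] at h1 h2
  have h3 : cf KX a b (-a - b) = cf KX b a (-a - b) :=
    cf_swap12 (K0 tg tu) a b (-a - b)
  rw [h1, h2] at h3
  exact_mod_cast h3

theorem S06_one (G u : ℝ → ℝ) : ((TK G u (fun _ => 1) : ℝ) : ℂ)
    = (((2 * Real.pi) ^ 3 : ℝ) : ℂ) * cf (KK G u) 0 0 0 := by
  have hp : (((2 * Real.pi) ^ 3 : ℝ) : ℂ) ≠ 0 := by
    exact_mod_cast (by positivity : ((2 * Real.pi) ^ 3 : ℝ) ≠ 0)
  unfold cf cfC TK
  rw [mul_div_cancel₀ _ hp, ← integral_complex_ofReal]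
  refine integral_congr_ae (ae_of_all _ fun z => ?_)
  simp [ch]

/-- the coefficients of the kernel are real and split -/
theorem S06_coef {G u F H : ℝ → ℝ} (h : GF G u) (hF : ∀ x, x ≠ 0 → F x = FF1 G u x)
    (hH : ∀ x, x ≠ 0 → H x = FF2 G x)
    (hint : Integrable (fun z : ℝ × ℝ × ℝ => EE F H z.1 z.2.1 z.2.2) mc3) (a b : ℤ) :
    cf (KK G u) (-(2 * a)) (-(2 * b)) (-(2 * (-a - b)))
      = (((kx (2 * a) (2 * b) : ℝ) + (cf (EE F H) (2 * a) (2 * b) (-(2 * a) - 2 * b)).re : ℝ) : ℂ) := by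
  have e1 : cf (KK G u) (-(2 * a)) (-(2 * b)) (-(2 * (-a - b)))
      = cf (KK G u) (2 * a) (2 * b) (2 * (-a - b)) :=
    cf_neg (K0 G u) (2 * a) (2 * b) (2 * (-a - b))
  have e2 : 2 * (-a - b) = -(2 * a) - 2 * b := by ring
  rw [e1, e2, cf_split h hF hH hint, cf_KX, if_pos (by ring)]
  have e3 : ((cf (EE F H) (2 * a) (2 * b) (-(2 * a) - 2 * b)).re : ℂ)
      = cf (EE F H) (2 * a) (2 * b) (-(2 * a) - 2 * b) :=
    cf_real (fun x y => F x + y * H x) _ _ _
  push_cast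
  rw [e3]

/-- the main inequality -/
theorem star {G u : ℝ → ℝ} (h : GF G u) : Star G u := by
  intro N a f hf h0
  obtain ⟨F, F1, F2, F3, S0, hFe, hF⟩ := F1_C3b h
  obtain ⟨H, H1, H2, H3, hHe, hH⟩ := F2_C3b h
  have hint := S06_EE_int hF hH
  obtain ⟨c1, c2, c3, c4⟩ := coeffs_of_nonneg hf h0
  set A : ℝ := (a 0).re with hA
  have ha0 : a 0 = (A : ℂ) := by
    apply Complex.ext
    · rw [hA, Complex.ofReal_re]
    · rw [Complex.ofReal_im, c2]
  -- truncated coefficients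
  set b : ℤ → ℂ := fun k => if k ∈ Finset.Icc (-(N : ℤ)) N then a k else 0 with hb
  have b_of : ∀ k ∈ Finset.Icc (-(N : ℤ)) N, b k = a k := fun k hk => by
    rw [hb]
    simp only
    rw [if_pos hk]
  have b_neg : ∀ k, b (-k) = conj (b k) := by
    intro k
    by_cases hk : k ∈ Finset.Icc (-(N : ℤ)) N
    · have hk' : -k ∈ Finset.Icc (-(N : ℤ)) N := by
        rw [Finset.mem_Icc] at hk ⊢
        omega
      rw [b_of k hk, b_of _ hk', (c4 k hk).1]
    · have hk' : -k ∉ Finset.Icc (-(N : ℤ)) N := by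
        rw [Finset.mem_Icc] at hk ⊢
        omega
      rw [hb]
      simp only
      rw [if_neg hk, if_neg hk', map_zero]
  have b_zero : b 0 = (A : ℂ) := by
    rw [b_of 0 (by rw [Finset.mem_Icc]; omega), ha0]
  have b_le : ∀ k, ‖b k‖ ≤ A := by
    intro k
    by_cases hk : k ∈ Finset.Icc (-(N : ℤ)) N
    · rw [b_of k hk]
      exact (c4 k hk).2
    · rw [hb]
      simp only
      rw [if_neg hk, norm_zero]
      exact c3
  set c : ℤ → ℤ → ℤ → ℂ := fun k l m => cf (KK G u) (-(2 * k)) (-(2 * l)) (-(2 * m)) with hc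
  set Φ : ℤ → ℤ → ℤ → ℂ := fun k l m => b k * b l * b m * c k l m with hΦ
  have hsec := sector N Φ
    (by
      intro k l m
      have : c k l m = c l k m := cf_swap12 (K0 G u) _ _ _
      rw [hΦ]
      simp only
      rw [this]
      ring)
    (by
      intro k l m
      have : c k l m = c k m l := cf_swap23 (K0 G u) _ _ _
      rw [hΦ]
      simp only
      rw [this]
      ring)
    (by
      intro k l m
      have : c (-k) (-l) (-m) = conj (c k l m) := by
        rw [hc]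
        simp only
        rw [cf_conj]
        simp only [mul_neg, neg_neg]
      rw [hΦ]
      simp only
      rw [this, b_neg, b_neg, b_neg, map_mul, map_mul, map_mul])
    (by
      intro k l m hk
      have : b k = 0 := by
        rw [hb]
        simp only
        rw [if_neg]
        rw [Finset.mem_Icc]
        intro h1
        rw [lt_abs] at hk
        omega
      rw [hΦ]
      simp only
      rw [this]
      ring)
  have hTK := TK_expand h hf
  have hsum : (∑ k ∈ Finset.Icc (-(N : ℤ)) N, ∑ l ∈ Finset.Icc (-(N : ℤ)) N,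
      ∑ m ∈ Finset.Icc (-(N : ℤ)) N,
        a k * a l * a m * cf (KK G u) (-(2 * k)) (-(2 * l)) (-(2 * m)))
      = ∑ k ∈ Finset.Icc (-(N : ℤ)) N, ∑ l ∈ Finset.Icc (-(N : ℤ)) N,
        ∑ m ∈ Finset.Icc (-(N : ℤ)) N, (if k + l + m = 0 then Φ k l m else 0) := by
    refine Finset.sum_congr rfl fun k hk => Finset.sum_congr rfl fun l hl =>
      Finset.sum_congr rfl fun m hm => ?_
    split_ifs with hs
    · rw [hΦ]
      simp only
      rw [b_of k hk, b_of l hl, b_of m hm]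
    · have : cf (KK G u) (-(2 * k)) (-(2 * l)) (-(2 * m)) = 0 :=
        cf_zero (K0 G u) _ _ _ (by omega)
      rw [this, mul_zero]
  rw [hsum, hsec] at hTK
  -- the value at zero
  have hone := S06_one G u
  have h000 : Φ 0 0 0 = ((A ^ 3 : ℝ) : ℂ) * cf (KK G u) 0 0 0 := by
    rw [hΦ]
    simp only
    rw [b_zero, hc]
    simp only [mul_zero, neg_zero]
    push_cast
    ring
  -- the two sums
  set x : ℕ → ℝ := fun n => ‖b n‖ with hx
  obtain ⟨kb1, kb2, kb3, kb4, kb5, kb6, kb7, kb8, kb9, kb10⟩ := kx_bounds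
  have hmain := main_part N x (fun n => norm_nonneg _) (fun n => (kx 0 (2 * n) : ℝ))
    (fun p q => (kx (2 * p) (2 * q) : ℝ)) (by simpa using kb1) (by simpa using kb2)
    (fun n hn => kb3 n hn) (fun p q => by
      have := S06_kx_symm (2 * p) (2 * q)
      simp only [this]) (by simpa using kb4) (fun q hq => by simpa using kb5 q hq)
    (fun q hq => by simpa using kb6 q hq) (fun q hq => by simpa using kb7 q hq)
    (fun q hq => by simpa using kb8 q hq) (fun q hq => by simpa using kb9 q hq)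
    (fun p q hp hq => by
      simp only [kb10 p q hp hq]
      norm_num)
  have herr := error_part N x (fun n => norm_nonneg _)
    (fun n => (cf (EE F H) 0 (2 * n) (-(2 * n))).re)
    (fun p q => (cf (EE F H) (2 * (p : ℤ)) (2 * (q : ℤ)) (-(2 * p) - 2 * q)).re)
    (fun n hn => E_pairs hF hH n (Finset.mem_Icc.1 hn).1) (E_triples hF hH N)
  have hcore := S06_core N A c3 x (fun n => norm_nonneg _) (fun n => b_le _) _ _ _ _
    (fun n => (Φ 0 n (-n)).re) (fun p q => (Φ p q (-p - q)).re)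
    (by
      intro n hn
      have e1 : c 0 n (-n) = (((kx 0 (2 * n) : ℝ)
          + (cf (EE F H) 0 (2 * n) (-(2 * n))).re : ℝ) : ℂ) := by
        have := S06_coef h hFe hHe hint 0 n
        simpa [hc] using this
      have e2 : Φ 0 n (-n) = ((A * x n ^ 2 * ((kx 0 (2 * n) : ℝ)
          + (cf (EE F H) 0 (2 * n) (-(2 * n))).re) : ℝ) : ℂ) := by
        rw [hΦ]
        simp only
        rw [e1, b_neg, b_zero, mul_assoc (A : ℂ), Complex.mul_conj, Complex.normSq_eq_norm_sq]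
        push_cast
        ring
      rw [e2, Complex.ofReal_re])
    (by
      intro p hp q hq
      have e1 := S06_coef h hFe hHe hint p q
      have e2 : ‖Φ p q (-p - q)‖ = |(kx (2 * p) (2 * q) : ℝ)
          + (cf (EE F H) (2 * (p : ℤ)) (2 * (q : ℤ)) (-(2 * p) - 2 * q)).re|
          * (x p * x q * x (p + q)) := by
        rw [hΦ]
        simp only
        have e3 : b (-(p : ℤ) - q) = conj (b ((p + q : ℕ) : ℤ)) := by
          rw [← b_neg]
          congr 1
          push_cast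
          ring
        rw [e3, norm_mul, norm_mul, norm_mul, RCLike.norm_conj]
        have e4 : ‖c p q (-(p : ℤ) - q)‖ = |(kx (2 * p) (2 * q) : ℝ)
          + (cf (EE F H) (2 * (p : ℤ)) (2 * (q : ℤ)) (-(2 * p) - 2 * q)).re| := by
          rw [hc]
          simp only
          rw [e1, Complex.norm_real, Real.norm_eq_abs]
        rw [e4]
        ring
      exact (Complex.re_le_norm _).trans e2.le)
    hmain herr
  -- conclusion
  rw [h000] at hTK
  have hfin : ((TK G u f : ℝ) : ℂ) = ((TK G u (fun _ => 1) * A ^ 3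
      + (2 * Real.pi) ^ 3 * 6 * (∑ n ∈ Finset.Icc 1 N, (Φ 0 n (-n)).re
        + ∑ p ∈ Finset.Icc 1 N, ∑ q ∈ Finset.Icc 1 N, (Φ p q (-p - q)).re) : ℝ) : ℂ) := by
    rw [hTK]
    push_cast
    rw [hone]
    push_cast
    ring
  have hfin' := Complex.ofReal_injective hfin
  rw [hfin', c1]
  have hp : 0 ≤ (2 * Real.pi) ^ 3 := by positivity
  have hs := hcore
  have : (2 * Real.pi) ^ 3 * 6 * (∑ n ∈ Finset.Icc 1 N, (Φ 0 n (-n)).re
        + ∑ p ∈ Finset.Icc 1 N, ∑ q ∈ Finset.Icc 1 N, (Φ p q (-p - q)).re) ≤ 0 :=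
    mul_nonpos_of_nonneg_of_nonpos (by positivity) hs
  have e5 : (2 * Real.pi * A) ^ 3 = A ^ 3 * (2 * Real.pi) ^ 3 := by ring
  rw [e5, ← mul_assoc]
  refine mul_le_mul_of_nonneg_right ?_ hp
  linarith

end Pool.Agent.Lib.MP_230119_an.EX
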